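import Pool.Agent.Run7.h142.GT.TateDefs
import Pool.Agent.Run7.h142.LT.FamDefs

/-!
# Slope functions, and varieties whose cohomology is generated in low degrees: definitions (helper142)
-/

set_option autoImplicit false

open CategoryTheory AlgebraicGeometry

universe u v w w'

namespace Pool.Agent.Run7.h142.CE

open Pool.Agent.H914 Pool.Agent.H281R3.HT Pool.Agent.W534 Pool.Agent.Run7.h142.GT VarClass Obj
  WeilCohomology

/-- `s` is a possible function of slopes of the weight `d`, for the field `K` with the complex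
conjugation `c`. The slope at the embedding `τ` of `K` in the algebraic closure of `ℚ_p` is
`d / 2 - s τ`. It is between `0` and `d` (`bound`), the values of `s` belong to `Λ` (`mem`), the sum
of the slopes at complex conjugate embeddings is `d` (`conj`), the slope depends only on the place
defined by the embedding (`galois`), and only on the values of the embedding at finitely many
elements (`finite`; this is automatic if `K` has finite degree). -/
structure IsSlopeFunction (p : ℕ) [Fact p.Prime] {K : Type} [Field K] (c : K →+* K)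
    (Λ : AddSubgroup ℝ) (d : ℕ) (s : (K →+* PadicAlgCl p) → ℝ) : Prop where
  mem : ∀ τ, s τ ∈ Λ
  bound : ∀ τ, |s τ| ≤ d / 2
  conj : ∀ τ, s (τ.comp c) = - s τ
  galois : ∀ (g : PadicAlgCl p ≃ₐ[ℚ_[p]] PadicAlgCl p) (τ : K →+* PadicAlgCl p),
    s ((g : PadicAlgCl p →+* PadicAlgCl p).comp τ) = s τ
  finite : ∃ t : Finset K, ∀ τ τ' : K →+* PadicAlgCl p, (∀ a ∈ t, τ a = τ' a) → s τ = s τ'

/-- The power `ω ^ M` belongs to the field `K` (embedded by `σ`), it has the absolute values
`q ^ (d M / 2)` at the complex places, where `q = p ^ n`, it is a unit outside `p`, and the slopes of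
`ω` with respect to `q` are `d / 2 - s τ`. -/
def HasSlopes (p : ℕ) [Fact p.Prime] {K F : Type*} [Field K] [Field F] (σ : K →+* F) (n d : ℕ)
    (s : (K →+* PadicAlgCl p) → ℝ) (M : ℕ) (ω : F) : Prop :=
  ∃ β : K, σ β = ω ^ M ∧ (∀ φ : K →+* ℂ, ‖φ β‖ ^ 2 = (p : ℝ) ^ (n * d * M)) ∧
    (∀ (ℓ : ℕ) [Fact ℓ.Prime], ℓ ≠ p → ∀ τ : K →+* PadicAlgCl ℓ, ‖τ β‖ = 1) ∧
    ∀ τ : K →+* PadicAlgCl p, Real.log ‖τ β‖ = (s τ - d / 2) * (n * M) * Real.log p

/-- The vector `x` of `G` is a generalized eigenvector of `f`, and a power of the eigenvalue is in `K`.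
Its slopes are `d / 2 - s τ`, with respect to `q = p ^ n`. -/
structure IsEigenIn {F M : Type*} [Field F] [AddCommGroup M] [Module F M] (G : Submodule F M)
    (f : M → M) (p : ℕ) [Fact p.Prime] (n : ℕ) {K : Type} [Field K] (σ : K →+* F) (d : ℕ)
    (s : (K →+* PadicAlgCl p) → ℝ) (x : M) : Prop where
  mem : x ∈ G
  eigen : ∃ (ω : F) (m b : ℕ), 0 < m ∧ (fun y => f y - ω • y)^[b] x = 0 ∧ HasSlopes p σ n d s m ω

/-- The algebra is generated by the subspaces `A` and `G d` for `d ≤ D`, and these spaces `G d` are
spanned by generalized eigenvectors of `f` which are defined over `K`, with slopes given by `Λ`. -/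
structure IsGeneratedIn {F M : Type*} [Field F] [Ring M] [Algebra F M] (A : Submodule F M)
    (G : ℕ → Submodule F M) (f : M → M) (p : ℕ) [Fact p.Prime] (n : ℕ) {K : Type}
    [Field K] (σ : K →+* F) (c : K →+* K) (Λ : AddSubgroup ℝ) (D : ℕ) : Prop where
  generated : ∀ x : M, x ∈ Algebra.adjoin F {y | y ∈ A ∨ ∃ d ≤ D, y ∈ G d}
  spanned : ∀ d ≤ D, G d ≤
    Submodule.span F {x | ∃ s, IsSlopeFunction p c Λ d s ∧ IsEigenIn (G d) f p n σ d s x}

/-- For some `z` in `A` the form `t (x * y * z)` in the elements `x`, `y` of `V` is nondegenerate. -/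
def IsPerfect {F M : Type*} [Field F] [Ring M] [Algebra F M] (A V : Submodule F M)
    (t : M →ₗ[F] F) : Prop :=
  ∃ z ∈ A, ∀ x ∈ V, x ≠ 0 → ∃ y ∈ V, t (x * y * z) ≠ 0

/-- The subspace `S` contains `A`, and it is stable under products. -/
structure IsSubring {F M : Type*} [Field F] [Ring M] [Algebra F M] (A S : Submodule F M) :
    Prop where
  le : A ≤ S
  mul : ∀ x ∈ S, ∀ y ∈ S, x * y ∈ S

/-- The map `f` maps the subspace `S` into the subspace `T`. -/
def MapsInto {F M N : Type*} [Field F] [AddCommGroup M] [Module F M] [AddCommGroup N] [Module F N]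
    (f : M → N) (S : Submodule F M) (T : Submodule F N) : Prop :=
  ∀ x ∈ S, f x ∈ T

/-- For some `z` in `A` the map `y ↦ g (z * f y)` is the identity. -/
def IsSplit {F M N : Type*} [Field F] [Ring M] [Algebra F M] (A : Submodule F M) (f : N → M)
    (g : M → N) : Prop :=
  ∃ z ∈ A, ∀ y, g (z * f y) = y

/-- The space `G` is contained in the span of the eigenvectors of `f`. -/
def IsDiagonal {F M : Type*} [Field F] [AddCommGroup M] [Module F M] (G : Submodule F M)
    (f : M → M) : Prop :=
  G ≤ Submodule.span F {x | ∃ ω : F, f x = ω • x}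

/-- The class `x` in `H ^ d (X)` is a generalized eigenvector of the Frobenius endomorphism, over the
field with `p ^ Φ.e X` elements, and some power of the eigenvalue is in `K`. Its slopes are
`d / 2 - s τ`. -/
def IsEigen {k : Type u} [Field k] {𝒱 : VarClass k} {ops : CycleOps 𝒱}
    {W : WeilCohomology.{u, v} ops} {p : ℕ} [Fact p.Prime] (Φ : FrobSystem W p) {K : Type}
    [Field K] (σ : K →+* W.K) (X : 𝒱.Obj) (d : ℕ) (s : (K →+* PadicAlgCl p) → ℝ) (x : W.H X) :
    Prop :=
  IsEigenIn (W.gr X d) (W.map (Φ.Fr X)) p (Φ.e X) σ d s x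

/-- The cohomology of `X` is generated, as an algebra, by the classes of algebraic cycles and by the
cohomology in the degrees `d ≤ D`, and this is spanned by generalized eigenvectors of Frobenius which
are defined over `K`, with slopes given by `Λ`. If `dim X ≤ D` the first property follows from the hard
Lefschetz theorem. -/
def IsGenerated {k : Type u} [Field k] {𝒱 : VarClass k} {ops : CycleOps 𝒱}
    {W : WeilCohomology.{u, v} ops} {p : ℕ} [Fact p.Prime] (Φ : FrobSystem W p) {K : Type}
    [Field K] (σ : K →+* W.K) (c : K →+* K) (Λ : AddSubgroup ℝ) (D : ℕ) (X : 𝒱.Obj) : Prop :=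
  IsGeneratedIn (algSpan W X) (W.gr X) (W.map (Φ.Fr X)) p (Φ.e X) σ c Λ D

/-- The Frobenius endomorphism is semisimple in the degrees `d ≤ D`. -/
def IsSemisimple {k : Type u} [Field k] {𝒱 : VarClass k} {ops : CycleOps 𝒱}
    {W : WeilCohomology.{u, v} ops} {p : ℕ} (Φ : FrobSystem W p) (D : ℕ) (X : 𝒱.Obj) : Prop :=
  ∀ d ≤ D, IsDiagonal (W.gr X d) (W.map (Φ.Fr X))

/-- The varieties `C j` are like all curves, or all abelian varieties: the cohomology is generated by
the classes of algebraic cycles and by `H ^ 1` (`generated`), there is a nondegenerate form on `H ^ 1`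
defined by an algebraic class (`perfect`), and each possible function of slopes of the weight one is
realised by a generalized eigenvector in the cohomology `H ^ 1` of one of the varieties `C j`
(`occurs`; for the family of all curves, or of all abelian varieties, this is the theorem of Honda). -/
structure IsComplete {k : Type u} [Field k] {𝒱 : VarClass k} {ops : CycleOps 𝒱}
    {W : WeilCohomology.{u, v} ops} {p : ℕ} [Fact p.Prime] (Φ : FrobSystem W p) {K : Type}
    [Field K] (σ : K →+* W.K) (c : K →+* K) (Λ : AddSubgroup ℝ) {J : Type w} (C : J → 𝒱.Obj) :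
    Prop where
  generated : ∀ j, IsGenerated Φ σ c Λ 1 (C j)
  perfect : ∀ j, IsPerfect (algSpan W (C j)) (W.gr (C j) 1) (W.tr (C j))
  occurs : ∀ s, IsSlopeFunction p c Λ 1 s → ∃ (j : J) (x : W.H (C j)), x ≠ 0 ∧
    IsEigen Φ σ (C j) 1 s x

/-- The products of copies of the varieties `X i`, and of varieties whose cohomology is spanned by
algebraic classes. -/
inductive IsProduct {k : Type u} [Field k] {𝒱 : VarClass k} {ops : CycleOps 𝒱}
    (W : WeilCohomology.{u, v} ops) {I : Type w} (X : I → 𝒱.Obj) : 𝒱.Obj → Prop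
  | alg {Y : 𝒱.Obj} : (∀ y : W.H Y, y ∈ algSpan W Y) → IsProduct W X Y
  | base (i : I) : IsProduct W X (X i)
  | prod {Y Z : 𝒱.Obj} : IsProduct W X Y → IsProduct W X Z → IsProduct W X (Y.prod Z)

/-- The variety `Y` is dominated by a product `Z` of copies of the varieties `X i`: there are a morphism
`f` from `Z` to `Y` and a combination `z` of algebraic classes on `Z` such that the push-forward of
`z` times the pull-back of `y` is `y`, for all classes `y` on `Y`. If `f` is surjective then there is
such a `z`: a multiple of a power of the class of a hyperplane section. -/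
def IsDominated {k : Type u} [Field k] {𝒱 : VarClass k} {ops : CycleOps 𝒱}
    (W : WeilCohomology.{u, v} ops) {I : Type w} (X : I → 𝒱.Obj) (Y : 𝒱.Obj) : Prop :=
  ∃ (Z : 𝒱.Obj) (f : Z ⟶ Y), IsProduct W X Z ∧ IsSplit (algSpan W Z) (W.map f) (W.push f)

/-- The product of `X` and of the varieties in the list. -/
noncomputable def prodOf {k : Type u} [Field k] {𝒱 : VarClass k} : 𝒱.Obj → List 𝒱.Obj → 𝒱.Obj
  | X, [] => X
  | X, Y :: l => X.prod (prodOf Y l)

/-- A system of subspaces `S Z` of the cohomology spaces `H (Z)`, for all varieties `Z`, which contains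
the classes of algebraic cycles and is stable under cup products, pull-backs and push-forwards. -/
structure IsStable {k : Type u} [Field k] {𝒱 : VarClass k} {ops : CycleOps 𝒱}
    (W : WeilCohomology.{u, v} ops) (S : ∀ Z : 𝒱.Obj, Submodule W.K (W.H Z)) : Prop where
  ring : ∀ Z, IsSubring (algSpan W Z) (S Z)
  pull : ∀ (Y Z : 𝒱.Obj) (f : Y ⟶ Z), MapsInto (W.map f) (S Z) (S Y)
  push : ∀ (Y Z : 𝒱.Obj) (f : Y ⟶ Z), MapsInto (W.push f) (S Y) (S Z)

/-- The system `S` contains the Tate classes of degree `2 m` on `Z`: the cohomology classes `x` of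
degree `2 m` with `(F - q ^ m) ^ b x = 0`, where `F` is the Frobenius endomorphism over some finite
field, with `q` elements. -/
def HasTate {k : Type u} [Field k] {𝒱 : VarClass k} {ops : CycleOps 𝒱}
    {W : WeilCohomology.{u, v} ops} {p : ℕ} (Φ : FrobSystem W p)
    (S : ∀ Z : 𝒱.Obj, Submodule W.K (W.H Z)) (Z : 𝒱.Obj) (b m : ℕ) : Prop :=
  KilledIn (S Z) (W.gr Z (2 * m)) (fun t => W.map (W534.iter (Φ.Fr Z) t))
    (fun t => (p : W.K) ^ (Φ.e Z * t * m)) b

/-- The property `P` is true for the products of one of the varieties `X i` and of `m ≤ D i` of the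
varieties `C j`, for the codimension `m`, and for the products of four of the varieties `C j`, for the
codimension two. -/
def ForSmall {k : Type u} [Field k] {𝒱 : VarClass k} {J : Type w} (C : J → 𝒱.Obj) {I : Type w'}
    (X : I → 𝒱.Obj) (D : I → ℕ) (P : 𝒱.Obj → ℕ → Prop) : Prop :=
  (∀ (i : I) (l : List J), l.length ≤ D i → P (prodOf (X i) (l.map C)) l.length) ∧
    ∀ j₁ j₂ j₃ j₄ : J, P (prodOf (C j₁) [C j₂, C j₃, C j₄]) 2

/-- The variety `Y` is dominated by a product of copies of the varieties `C j` and `X i`, and of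
varieties whose cohomology is spanned by algebraic classes. -/
def IsDominatedBy {k : Type u} [Field k] {𝒱 : VarClass k} {ops : CycleOps 𝒱}
    (W : WeilCohomology.{u, v} ops) {J : Type w} (C : J → 𝒱.Obj) {I : Type w'} (X : I → 𝒱.Obj)
    (Y : 𝒱.Obj) : Prop :=
  IsDominated W (Sum.elim C X) Y

/-- The Tate conjecture and the semisimplicity of Frobenius at `q ^ m` hold in all codimensions `m`
for all varieties which are dominated by products of the varieties `C j` and `X i`. -/
def TateForDominated {k : Type u} [Field k] {𝒱 : VarClass k} {ops : CycleOps 𝒱}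
    {W : WeilCohomology.{u, v} ops} {p : ℕ} (Φ : FrobSystem W p) {J : Type w} (C : J → 𝒱.Obj)
    {I : Type w'} (X : I → 𝒱.Obj) : Prop :=
  ∀ Y, IsDominatedBy W C X Y → ∀ b m, TateTo Φ Y b m

/-- The Tate conjecture and the semisimplicity of Frobenius at `q ^ m` hold for the products of one of
the varieties `X i` and of `m ≤ D i` of the varieties `C j`, in the codimension `m`, and for the
products of four of the varieties `C j`, in the codimension `m = 2`. -/
def StrongTateForSmall {k : Type u} [Field k] {𝒱 : VarClass k} {ops : CycleOps 𝒱}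
    {W : WeilCohomology.{u, v} ops} {p : ℕ} (Φ : FrobSystem W p) {J : Type w} (C : J → 𝒱.Obj)
    {I : Type w'} (X : I → 𝒱.Obj) (D : I → ℕ) : Prop :=
  ForSmall C X D fun Z m => ∀ b, TateTo Φ Z b m

/-- The Tate conjecture holds for the products of one of the varieties `X i` and of `m ≤ D i` of the
varieties `C j`, in the codimension `m`, and for the products of four of the varieties `C j`, in the
codimension `m = 2`. -/
def TateForSmall {k : Type u} [Field k] {𝒱 : VarClass k} {ops : CycleOps 𝒱}
    {W : WeilCohomology.{u, v} ops} {p : ℕ} (Φ : FrobSystem W p) {J : Type w} (C : J → 𝒱.Obj)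
    {I : Type w'} (X : I → 𝒱.Obj) (D : I → ℕ) : Prop :=
  ForSmall C X D fun Z m => TateTo Φ Z 1 m

/-- The Tate classes on the varieties which are dominated by products of the varieties `C j` and `X i`
are generated by the classes of algebraic cycles and by the Tate classes of codimension `m` on the
products of one of the varieties `X i` and of `m ≤ D i` of the varieties `C j`, and of codimension two
on the products of four of the varieties `C j`: each stable system which contains the latter contains
the former. -/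
def GeneratedBySmall {k : Type u} [Field k] {𝒱 : VarClass k} {ops : CycleOps 𝒱}
    {W : WeilCohomology.{u, v} ops} {p : ℕ} (Φ : FrobSystem W p) {J : Type w} (C : J → 𝒱.Obj)
    {I : Type w'} (X : I → 𝒱.Obj) (D : I → ℕ) : Prop :=
  ∀ S : (∀ Z : 𝒱.Obj, Submodule W.K (W.H Z)), IsStable W S →
    (ForSmall C X D fun Z m => ∀ b, HasTate Φ S Z b m) →
      ∀ Y, IsDominatedBy W C X Y → ∀ b m, HasTate Φ S Y b m

end Pool.Agent.Run7.h142.CE
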