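import Pool.Agent.R940.Kron
import Pool.Agent.Run7.h142.CE.Defs

/-!
# Weil numbers and their slopes (helper142)
-/

set_option autoImplicit false
set_option linter.unusedSectionVars false

universe u v w

namespace Pool.Agent.Run7.h142.CE

open Polynomial

variable {p : ℕ} [Fact p.Prime] {K : Type} [Field K] {F : Type*} [Field F] {σ : K →+* F}
  {n d d' M : ℕ} {s s' : (K →+* PadicAlgCl p) → ℝ} {ω ω' : F}

theorem log_p_pos (p : ℕ) [Fact p.Prime] : 0 < Real.log p :=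
  Real.log_pos (by exact_mod_cast (Fact.out : p.Prime).one_lt)

theorem norm_p (p : ℕ) [Fact p.Prime] : ‖(p : PadicAlgCl p)‖ = (p : ℝ)⁻¹ := by
  have h : (((p : ℕ) : ℚ_[p]) : PadicAlgCl p) = (p : PadicAlgCl p) := map_natCast (algebraMap _ _) p
  rw [← h, PadicAlgCl.norm_extends]
  exact Padic.norm_p

theorem norm_off_p {ℓ : ℕ} [Fact ℓ.Prime] (h : ℓ ≠ p) : ‖(p : PadicAlgCl ℓ)‖ = 1 := by
  have h1 : (((p : ℕ) : ℚ_[ℓ]) : PadicAlgCl ℓ) = (p : PadicAlgCl ℓ) :=
    map_natCast (algebraMap _ _) p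
  rw [← h1, PadicAlgCl.norm_extends]
  have h2 : ¬ (ℓ : ℤ) ∣ (p : ℤ) := by
    intro h3
    have h4 : ℓ ∣ p := by exact_mod_cast h3
    exact h ((Nat.prime_dvd_prime_iff_eq (Fact.out : ℓ.Prime) (Fact.out : p.Prime)).1 h4)
  have h3 := (Padic.norm_intCast_lt_one_iff (p := ℓ) (k := (p : ℤ))).not.2 h2
  have h4 := Padic.norm_int_le_one (p := ℓ) (p : ℤ)
  push_cast at h3 h4
  exact le_antisymm h4 (not_lt.1 h3)

theorem slopes_one (M : ℕ) : HasSlopes p σ n 0 0 M 1 := by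
  refine ⟨1, by rw [map_one, one_pow], fun φ => ?_, fun ℓ _ _ τ => ?_, fun τ => ?_⟩
  · rw [map_one, norm_one, mul_zero, zero_mul, pow_zero, one_pow]
  · rw [map_one, norm_one]
  · rw [map_one, norm_one, Real.log_one, Pi.zero_apply]
    simp

theorem slopes_exp (m : ℕ) (h : HasSlopes p σ n d s M ω) : HasSlopes p σ n d s (M * m) ω := by
  obtain ⟨β, h1, h2, h3, h4⟩ := h
  refine ⟨β ^ m, by rw [map_pow, h1, pow_mul], fun φ => ?_, fun ℓ _ hℓ τ => ?_, fun τ => ?_⟩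
  · rw [map_pow, norm_pow, ← pow_mul, mul_comm m 2, pow_mul, h2, ← pow_mul, mul_assoc (n * d)]
  · rw [map_pow, norm_pow, h3 ℓ hℓ, one_pow]
  · rw [map_pow, norm_pow, Real.log_pow, h4]
    push_cast
    ring

theorem slopes_pow (t : ℕ) (h : HasSlopes p σ n d s M ω) :
    HasSlopes p σ (n * t) d s M (ω ^ t) := by
  obtain ⟨β, h1, h2, h3, h4⟩ := h
  refine ⟨β ^ t, by rw [map_pow, h1, ← pow_mul, ← pow_mul, mul_comm], fun φ => ?_,
    fun ℓ _ hℓ τ => ?_, fun τ => ?_⟩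
  · rw [map_pow, norm_pow, ← pow_mul, mul_comm t 2, pow_mul, h2, ← pow_mul]
    congr 1
    ring
  · rw [map_pow, norm_pow, h3 ℓ hℓ, one_pow]
  · rw [map_pow, norm_pow, Real.log_pow, h4]
    push_cast
    ring

variable [CharZero K] [Algebra.IsAlgebraic ℚ K]

theorem beta_ne {β : K} {m : ℕ} (h : ∀ φ : K →+* ℂ, ‖φ β‖ ^ 2 = (p : ℝ) ^ m) : β ≠ 0 := by
  rintro rfl
  have h1 := h (IsAlgClosed.lift : K →ₐ[ℚ] ℂ).toRingHom
  rw [map_zero, norm_zero, zero_pow two_ne_zero] at h1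
  have h2 : (p : ℝ) ^ m ≠ 0 := pow_ne_zero _ (by exact_mod_cast (Fact.out : p.Prime).ne_zero)
  exact h2 h1.symm

theorem slopes_mul (h : HasSlopes p σ n d s M ω) (h' : HasSlopes p σ n d' s' M ω') :
    HasSlopes p σ n (d + d') (s + s') M (ω * ω') := by
  obtain ⟨β, h1, h2, h3, h4⟩ := h
  obtain ⟨γ, g1, g2, g3, g4⟩ := h'
  refine ⟨β * γ, by rw [map_mul, h1, g1, mul_pow], fun φ => ?_, fun ℓ _ hℓ τ => ?_, fun τ => ?_⟩
  · rw [map_mul, norm_mul, mul_pow, h2, g2, ← pow_add]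
    congr 1
    ring
  · rw [map_mul, norm_mul, h3 ℓ hℓ, g3 ℓ hℓ, one_mul]
  · rw [map_mul, norm_mul, Real.log_mul, h4, g4, Pi.add_apply]
    · push_cast
      ring
    · exact norm_ne_zero_iff.2 ((map_ne_zero τ).2 (beta_ne h2))
    · exact norm_ne_zero_iff.2 ((map_ne_zero τ).2 (beta_ne g2))

theorem slopes_p (j : ℕ) (M : ℕ) : HasSlopes p σ n (2 * j) 0 M ((p : F) ^ (n * j)) := by
  refine ⟨(p : K) ^ (n * j * M), by rw [map_pow, map_natCast, ← pow_mul], fun φ => ?_,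
    fun ℓ _ hℓ τ => ?_, fun τ => ?_⟩
  · rw [map_pow, map_natCast, norm_pow, ← pow_mul]
    have h1 : ‖((p : ℕ) : ℂ)‖ = (p : ℝ) := Complex.norm_natCast p
    rw [h1]
    congr 1
    ring
  · rw [map_pow, map_natCast, norm_pow, norm_off_p hℓ, one_pow]
  · rw [map_pow, map_natCast, norm_pow, norm_p, Real.log_pow, Real.log_inv, Pi.zero_apply]
    push_cast
    ring

theorem hlift {A : Type} [Field A] [Algebra ℚ A] [IsAlgClosed A] (x : K) (y : A)
    (hy : aeval y (minpoly ℚ x) = 0) : ∃ g : K →+* A, g x = y := by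
  have h2 := Algebra.IsAlgebraic.range_eval_eq_rootSet_minpoly (F := ℚ) (A := A) x
  have h3 : y ∈ (minpoly ℚ x).rootSet A :=
    mem_rootSet.2 ⟨minpoly.ne_zero (Algebra.IsAlgebraic.isAlgebraic x).isIntegral, hy⟩
  rw [← h2] at h3
  obtain ⟨g, hg⟩ := h3
  exact ⟨g.toRingHom, hg⟩

/-- **Weil numbers with the slopes of a power of `q`** -/
theorem root_of_slopes (h : HasSlopes p σ n d s M ω) {m : ℕ} (hd : d = 2 * m) (hs : s = 0)
    (hM : 0 < M) : ∃ R, 0 < R ∧ ω ^ R = ((p : F) ^ (n * m)) ^ R := by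
  obtain ⟨β, h1, h2, h3, h4⟩ := h
  subst hs
  subst hd
  have hβ := beta_ne h2
  have hpK : (p : K) ≠ 0 := Nat.cast_ne_zero.2 (Fact.out : p.Prime).ne_zero
  have hpp : (p : K) ^ (n * m * M) ≠ 0 := pow_ne_zero _ hpK
  let γ : K := β / (p : K) ^ (n * m * M)
  have hγ : γ ≠ 0 := div_ne_zero hβ hpp
  obtain ⟨r, hr, h5⟩ := Pool.Agent.R940.root_of_unity (x := γ)
    (Algebra.IsAlgebraic.isAlgebraic γ) hγ
    (fun ℓ hF y hy => by
      obtain ⟨g, hg⟩ := hlift _ y hy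
      rw [← hg]
      have h6 : g γ = g β / (p : PadicAlgCl ℓ) ^ (n * m * M) := by
        change g (β / (p : K) ^ (n * m * M)) = _
        rw [map_div₀, map_pow, map_natCast]
      rw [h6, norm_div, norm_pow]
      by_cases hℓ : ℓ = p
      · subst hℓ
        have h7 := h4 g
        rw [norm_p]
        have h8 : 0 < ‖g β‖ := norm_pos_iff.2 ((map_ne_zero g).2 hβ)
        have hp0 : (0 : ℝ) < ℓ := by exact_mod_cast (Fact.out : ℓ.Prime).pos
        have h9 : Real.log (‖g β‖ / ((ℓ : ℝ)⁻¹) ^ (n * m * M)) = 0 := by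
          rw [Real.log_div h8.ne' (pow_ne_zero _ (inv_ne_zero hp0.ne')), h7, Real.log_pow,
            Real.log_inv, Pi.zero_apply]
          push_cast
          ring
        exact (Real.eq_one_of_pos_of_log_eq_zero
          (div_pos h8 (pow_pos (inv_pos.2 hp0) _)) h9).le
      · rw [h3 ℓ hℓ, norm_off_p hℓ, one_pow, div_one])
    (fun y hy => by
      obtain ⟨g, hg⟩ := hlift _ y hy
      rw [← hg]
      have h6 : g γ = g β / (p : ℂ) ^ (n * m * M) := by
        change g (β / (p : K) ^ (n * m * M)) = _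
        rw [map_div₀, map_pow, map_natCast]
      have h7 : ‖((p : ℕ) : ℂ)‖ = (p : ℝ) := Complex.norm_natCast p
      have hp0 : (0 : ℝ) < p := by exact_mod_cast (Fact.out : p.Prime).pos
      rw [h6, norm_div, norm_pow, h7]
      have h8 : ‖g β‖ = (p : ℝ) ^ (n * m * M) := by
        have h9 := h2 g
        rw [show n * (2 * m) * M = n * m * M * 2 by ring, pow_mul] at h9
        exact (pow_left_inj₀ (norm_nonneg _) (pow_nonneg hp0.le _) two_ne_zero).1 h9
      rw [h8, div_self (pow_ne_zero _ hp0.ne')])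
  refine ⟨M * r, Nat.mul_pos hM hr, ?_⟩
  have h6 : β ^ r = ((p : K) ^ (n * m * M)) ^ r := by
    change (β / (p : K) ^ (n * m * M)) ^ r = 1 at h5
    rwa [div_pow, div_eq_one_iff_eq (pow_ne_zero _ hpp)] at h5
  rw [pow_mul, ← h1, ← map_pow, h6, map_pow, map_pow, map_natCast, ← pow_mul, ← pow_mul,
    mul_assoc (n * m)]

/-- **The weight and the slopes of the powers of `q`** -/
theorem slopes_of_root [CharZero F] (h : HasSlopes p σ n d s M ω) (hn : 0 < n) (hM : 0 < M)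
    {c : ℤ} {N : ℕ} (hN : 0 < N) (hω : ω ^ N = (((p : F) ^ n) ^ c) ^ N) :
    (d : ℤ) = 2 * c ∧ s = 0 := by
  obtain ⟨β, h1, h2, h3, h4⟩ := h
  have hβ := beta_ne h2
  have hpK : (p : K) ≠ 0 := Nat.cast_ne_zero.2 (Fact.out : p.Prime).ne_zero
  have hp1 : (1 : ℝ) < p := by exact_mod_cast (Fact.out : p.Prime).one_lt
  have hp0 : (0 : ℝ) < p := by linarith
  have h5 : β ^ N = (((p : K) ^ n) ^ c) ^ (N * M) := by
    apply σ.injective
    rw [map_pow, h1, map_pow, map_zpow₀, map_pow, map_natCast, ← pow_mul, mul_comm M N, pow_mul,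
      hω, pow_mul]
  have hlog : ∀ {A : Type} [NormedField A] (g : K →+* A), ‖(p : A)‖ ≠ 0 →
      N * Real.log ‖g β‖ = (n * c * (N * M) : ℝ) * Real.log ‖(p : A)‖ := by
    intro A _ g hA
    have h6 := congrArg (fun z => Real.log ‖g z‖) h5
    simp only [map_pow, map_zpow₀, map_natCast, norm_pow, norm_zpow] at h6
    rw [Real.log_pow, Real.log_pow, Real.log_zpow, Real.log_pow] at h6
    rw [h6]
    push_cast
    ring
  have hNr : (N : ℝ) ≠ 0 := Nat.cast_ne_zero.2 hN.ne'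
  have hMr : (M : ℝ) ≠ 0 := Nat.cast_ne_zero.2 hM.ne'
  have hnr : (n : ℝ) ≠ 0 := Nat.cast_ne_zero.2 hn.ne'
  have hlp := log_p_pos p
  have hd : (d : ℝ) = 2 * c := by
    let φ : K →+* ℂ := (IsAlgClosed.lift : K →ₐ[ℚ] ℂ).toRingHom
    have h7 : ‖((p : ℕ) : ℂ)‖ = (p : ℝ) := Complex.norm_natCast p
    have h6 := hlog φ (by rw [h7]; exact hp0.ne')
    rw [h7] at h6
    have h8 := congrArg Real.log (h2 φ)
    rw [Real.log_pow, Real.log_pow] at h8
    push_cast at h8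
    have h9 : (N * (n * d * M) : ℝ) * Real.log p = (2 * (n * c * (N * M)) : ℝ) * Real.log p := by
      linear_combination (-(N : ℝ)) * h8 + 2 * h6
    have h10 := mul_right_cancel₀ hlp.ne' h9
    have h11 : (N * n * M : ℝ) ≠ 0 := mul_ne_zero (mul_ne_zero hNr hnr) hMr
    refine mul_left_cancel₀ h11 ?_
    linear_combination h10
  refine ⟨by exact_mod_cast hd, ?_⟩
  funext τ
  have h6 := hlog τ (by rw [norm_p]; exact inv_ne_zero hp0.ne')
  rw [h4, norm_p, Real.log_inv, hd] at h6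
  have h11 : (N * n * M : ℝ) * Real.log p ≠ 0 :=
    mul_ne_zero (mul_ne_zero (mul_ne_zero hNr hnr) hMr) hlp.ne'
  rw [Pi.zero_apply]
  refine mul_left_cancel₀ h11 ?_
  linear_combination h6

end Pool.Agent.Run7.h142.CE
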