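import Pool.Agent.TH121.KT.Word2
import Pool.Agent.Run7.h142.CE.Num
import Pool.Agent.Run7.h142.GT.TateLem

/-!
# Words in eigenvectors (helper142)

Adapted from the starting files `TH121/KT/Word` and `TH121/KT/Word2`.
-/

set_option autoImplicit false
set_option linter.unusedSectionVars false

open CategoryTheory AlgebraicGeometry
open scoped TensorProduct

universe u v w

namespace Pool.Agent.Run7.h142.CE

open Pool.Agent.H914 Pool.Agent.H914.VarClass Pool.Agent.H914.VarClass.Obj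
  Pool.Agent.H914.WeilCohomology Pool.Agent.H281R3.HT Pool.Agent.W534
  Pool.Agent.W458.RK Pool.Agent.W458.MF Pool.Agent.TH132.A Pool.Agent.W536.RR
  Pool.Agent.TH121.KT

variable {k : Type u} [Field k] {𝒱 : VarClass k} {ops : CycleOps 𝒱}
  {W : WeilCohomology.{u, v} ops} {p : ℕ} [Fact p.Prime] {Φ : FrobSystem W p}
  {K : Type} [Field K] {σ : K →+* W.K} {c : K →+* K} {Λ : AddSubgroup ℝ}
  {I : Type w} {X : I → 𝒱.Obj} {D : I → ℕ} {Z Z' : 𝒱.Obj}

/-- a pulled back eigenvector -/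
structure Lt (Φ : FrobSystem W p) (σ : K →+* W.K) (X : I → 𝒱.Obj) (Z : 𝒱.Obj) where
  i : I
  f : Z ⟶ X i
  d : ℕ
  s : (K →+* PadicAlgCl p) → ℝ
  x : W.H (X i)
  h : IsEigen Φ σ (X i) d s x

namespace Lt

/-- the class -/
noncomputable def val (l : Lt Φ σ X Z) : W.H Z := W.map l.f l.x

/-- the label -/
def label (l : Lt Φ σ X Z) : ℕ × ((K →+* PadicAlgCl p) → ℝ) := (l.d, l.s)

/-- pull-back of letters -/
noncomputable def pull (g : Z' ⟶ Z) (l : Lt Φ σ X Z) : Lt Φ σ X Z' :=
  ⟨l.i, g ≫ l.f, l.d, l.s, l.x, l.h⟩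

lemma val_pull (g : Z' ⟶ Z) (l : Lt Φ σ X Z) : (l.pull g).val = W.map g l.val :=
  W.map_comp g l.f l.x

lemma val_mem (l : Lt Φ σ X Z) : l.val ∈ W.gr Z l.d := W.map_mem _ l.h.mem

/-- the eigenvalue at the level `t` -/
def At (l : Lt Φ σ X Z) (t M : ℕ) : Prop :=
  ∃ ω : W.K, l.val ∈ (frob Φ Z t).maxGenEigenspace ω ∧
    HasSlopes p σ (Φ.e Z * t) l.d l.s M ω

lemma At.mul {l : Lt Φ σ X Z} {t M : ℕ} (h : l.At t M) (m : ℕ) : l.At t (M * m) := by
  obtain ⟨ω, h1, h2⟩ := h
  exact ⟨ω, h1, slopes_exp m h2⟩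

lemma exists_at (l : Lt Φ σ X Z) : ∃ a M : ℕ, 0 < a ∧ 0 < M ∧
    ∀ t, 0 < t → l.At (a * t) M := by
  obtain ⟨i, f, d, s, x, hx, μ, M, b, hM, hμ, hrel⟩ := l
  obtain ⟨a, ha, h⟩ := exists_comm Φ f
  refine ⟨a, M, ha, hM, fun t ht => ?_⟩
  obtain ⟨s', hs', hss, hcomm⟩ := h t ht
  refine ⟨μ ^ s', ?_, ?_⟩
  · change W.map f x ∈ (frob Φ Z (a * t)).maxGenEigenspace (μ ^ s')
    have h1 : x ∈ Module.End.maxGenEigenspace (W.map (Φ.Fr (X i))).toLinearMap μ := by
      rw [Module.End.mem_maxGenEigenspace]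
      refine ⟨b, ?_⟩
      rw [← Pool.Agent.Run7.h142.GT.iterate_eq]
      exact hμ
    have h2 := gen_pow_of_gen h1 s'
    rw [← frob_pow_eq'] at h2
    have h3 := gen_map (T := frob Φ (X i) s') (T' := frob Φ Z (a * t))
      (θ := (W.map f).toLinearMap) (c := 1) (fun y => by
        rw [one_smul]
        exact hcomm y) h2
    rw [one_mul] at h3
    exact h3
  · have h1 : Φ.e Z * (a * t) = Φ.e (X i) * s' := by
      rw [mul_comm (Φ.e Z), ← hss, mul_comm]
    rw [h1]
    exact slopes_pow s' hrel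

end Lt

/-- products of generalized eigenvectors -/
lemma mul_gen {t : ℕ} {x y : W.H Z} {μ ν : W.K} (hx : x ∈ (frob Φ Z t).maxGenEigenspace μ)
    (hy : y ∈ (frob Φ Z t).maxGenEigenspace ν) :
    x * y ∈ (frob Φ Z t).maxGenEigenspace (μ * ν) :=
  gen_mul (LinearMap.mul W.K (W.H Z)) (fun x y => frob_mul_apply Φ t x y) hx hy

/-- the class of a list of letters -/
noncomputable def wval (L : List (Lt Φ σ X Z)) : W.H Z := (L.map Lt.val).prod

lemma wval_nil : wval ([] : List (Lt Φ σ X Z)) = 1 := rfl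

lemma wval_cons (a : Lt Φ σ X Z) (L : List (Lt Φ σ X Z)) :
    wval (a :: L) = a.val * wval L := by
  rw [wval, List.map_cons, List.prod_cons]
  rfl

lemma wval_append (L L' : List (Lt Φ σ X Z)) :
    wval (L ++ L') = wval L * wval L' := by
  rw [wval, List.map_append, List.prod_append]
  rfl

lemma wval_pull (g : Z' ⟶ Z) (L : List (Lt Φ σ X Z)) :
    wval (L.map (Lt.pull g)) = W.map g (wval L) := by
  induction L with
  | nil => rw [List.map_nil, wval_nil, wval_nil, map_one]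
  | cons a L ih => rw [List.map_cons, wval_cons, wval_cons, map_mul, ih, Lt.val_pull]

/-- the degree of a word -/
lemma wval_gr (L : List (Lt Φ σ X Z)) :
    wval L ∈ W.gr Z (L.map fun l => l.d).sum := by
  induction L with
  | nil => exact W.one_mem Z
  | cons a L ih =>
    rw [wval_cons, List.map_cons, List.sum_cons]
    exact W.mul_mem a.val_mem ih

/-- permutations of words -/
lemma wval_perm {L L' : List (Lt Φ σ X Z)} (h : L.Perm L') :
    ∃ c : W.K, wval L = c • wval L' := by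
  induction h with
  | nil => exact ⟨1, (one_smul _ _).symm⟩
  | cons x _ ih =>
    obtain ⟨c, hc⟩ := ih
    exact ⟨c, by rw [wval_cons, wval_cons, hc, mul_smul_comm]⟩
  | swap x y l =>
    refine ⟨(-1) ^ (y.d * x.d), ?_⟩
    rw [wval_cons, wval_cons, wval_cons, wval_cons, ← mul_assoc,
      W.comm y.val_mem x.val_mem, smul_mul_assoc, mul_assoc]
  | trans _ _ ih1 ih2 =>
    obtain ⟨c, hc⟩ := ih1
    obtain ⟨d, hd⟩ := ih2
    exact ⟨c * d, by rw [hc, hd, smul_smul]⟩

/-- a good level for a word -/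
lemma word_lev (L : List (Lt Φ σ X Z)) : ∃ a M : ℕ, 0 < a ∧ 0 < M ∧
    ∀ t, 0 < t → ∀ l ∈ L, l.At (a * t) M := by
  induction L with
  | nil => exact ⟨1, 1, one_pos, one_pos, fun t _ l hl => absurd hl List.not_mem_nil⟩
  | cons b L ih =>
    obtain ⟨a, M, ha, hM, h⟩ := ih
    obtain ⟨a', M', ha', hM', h'⟩ := b.exists_at
    refine ⟨a * a', M * M', Nat.mul_pos ha ha', Nat.mul_pos hM hM', fun t ht l hl => ?_⟩
    rcases List.mem_cons.1 hl with rfl | hl
    · have := (h' (a * t) (Nat.mul_pos ha ht)).mul M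
      rwa [show a' * (a * t) = a * a' * t by ring, mul_comm M' M] at this
    · have := (h (a' * t) (Nat.mul_pos ha' ht) l hl).mul M'
      rwa [← mul_assoc] at this

/-- the words -/
def Wds (Φ : FrobSystem W p) (σ : K →+* W.K) (c : K →+* K) (Λ : AddSubgroup ℝ) (D : I → ℕ)
    (X : I → 𝒱.Obj) (Z : 𝒱.Obj) : Set (W.H Z) :=
  {v | ∃ (L : List (Lt Φ σ X Z)) (j : ℕ) (z : Z.Cycles),
    (∀ l ∈ L, l.d ≤ D l.i ∧ IsSlopeFunction p c Λ l.d l.s) ∧ Z.IsCyc j z ∧
    v = wval L * W.cl Z z}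

/-- the words which are eigenvectors at the level `t` -/
def GoodWds (Φ : FrobSystem W p) (σ : K →+* W.K) (c : K →+* K) (Λ : AddSubgroup ℝ) (D : I → ℕ)
    (X : I → 𝒱.Obj) (Z : 𝒱.Obj) (t : ℕ) : Set (W.H Z) :=
  {v | ∃ (L : List (Lt Φ σ X Z)) (j M : ℕ) (z : Z.Cycles),
    (∀ l ∈ L, l.d ≤ D l.i ∧ IsSlopeFunction p c Λ l.d l.s) ∧ 0 < M ∧ Z.IsCyc j z ∧
    (∀ l ∈ L, l.At t M) ∧
    frob Φ Z t (W.cl Z z) = (card Φ Z t : W.K) ^ j • W.cl Z z ∧ v = wval L * W.cl Z z}

/-- a linear combination of words is a combination of good words for a large level -/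
lemma span_gd {z : W.H Z} (hz : z ∈ Submodule.span W.K (Wds Φ σ c Λ D X Z)) :
    ∃ t₀, 0 < t₀ ∧ ∀ t, 0 < t →
      z ∈ Submodule.span W.K (GoodWds Φ σ c Λ D X Z (t₀ * t)) := by
  induction hz using Submodule.span_induction with
  | mem v hv =>
    obtain ⟨L, j, z, hLc, hc, rfl⟩ := hv
    obtain ⟨a, M, ha, hM, h⟩ := word_lev L
    obtain ⟨b, hb, h1⟩ := Φ.cyc hc
    have h1 : frob Φ Z b (W.cl Z z) = (card Φ Z b : W.K) ^ j • W.cl Z z := by
      rw [card_pow]
      exact h1
    refine ⟨a * b, Nat.mul_pos ha hb, fun t ht => Submodule.subset_span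
      ⟨L, j, M, z, hLc, hM, hc, ?_, ?_, rfl⟩⟩
    · rw [mul_assoc]
      exact h (b * t) (Nat.mul_pos hb ht)
    · rw [show a * b * t = b * (a * t) by ring]
      exact eig_pow h1 (a * t)
  | zero => exact ⟨1, one_pos, fun t _ => Submodule.zero_mem _⟩
  | add x y _ _ hx hy =>
    obtain ⟨a, ha, h⟩ := hx
    obtain ⟨b, hb, h'⟩ := hy
    refine ⟨a * b, Nat.mul_pos ha hb, fun t ht => Submodule.add_mem _ ?_ ?_⟩
    · rw [mul_assoc]
      exact h _ (Nat.mul_pos hb ht)
    · rw [show a * b * t = b * (a * t) by ring]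
      exact h' _ (Nat.mul_pos ha ht)
  | smul c x _ hx =>
    obtain ⟨a, ha, h⟩ := hx
    exact ⟨a, ha, fun t ht => Submodule.smul_mem _ _ (h t ht)⟩

lemma alg_wds {z : W.H Z} (hz : z ∈ algSpan W Z) :
    z ∈ Submodule.span W.K (Wds Φ σ c Λ D X Z) := by
  refine algSpan_induction (p := fun z => z ∈ Submodule.span W.K (Wds Φ σ c Λ D X Z))
    (Submodule.zero_mem _) (fun a b ha hb => Submodule.add_mem _ ha hb)
    (fun t a ha => Submodule.smul_mem _ _ ha) (fun j z hc => Submodule.subset_span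
      ⟨[], j, z, fun l hl => absurd hl List.not_mem_nil, hc, ?_⟩) hz
  rw [wval_nil, one_mul]

/-- products of words -/
lemma mul_wds {a b : W.H Z}
    (ha : a ∈ Submodule.span W.K (Wds Φ σ c Λ D X Z))
    (hb : b ∈ Submodule.span W.K (Wds Φ σ c Λ D X Z)) :
    a * b ∈ Submodule.span W.K (Wds Φ σ c Λ D X Z) := by
  induction ha using Submodule.span_induction with
  | mem v hv =>
    induction hb using Submodule.span_induction with
    | mem u hu =>
      obtain ⟨L, j, z, hL, hc, rfl⟩ := hv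
      obtain ⟨L', j', z', hL', hc', rfl⟩ := hu
      refine Submodule.subset_span ⟨L ++ L', j + j', ops.mul z z', fun l hl => ?_,
        ops.mul_mem hc hc', ?_⟩
      · rcases List.mem_append.1 hl with h | h
        · exact hL l h
        · exact hL' l h
      rw [wval_append, W.cl_mul, mul_assoc, ← mul_assoc (W.cl Z z),
        algSpan_comm (cl_mem_algSpan hc) (wval L')]
      simp only [mul_assoc]
    | zero => rw [mul_zero]; exact Submodule.zero_mem _
    | add x y _ _ hx hy => rw [mul_add]; exact Submodule.add_mem _ hx hy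
    | smul c x _ hx => rw [mul_smul_comm]; exact Submodule.smul_mem _ _ hx
  | zero => rw [zero_mul]; exact Submodule.zero_mem _
  | add x y _ _ hx hy => rw [add_mul]; exact Submodule.add_mem _ hx hy
  | smul c x _ hx => rw [smul_mul_assoc]; exact Submodule.smul_mem _ _ hx

/-- pull-backs of words -/
lemma pull_wds (g : Z' ⟶ Z) {a : W.H Z}
    (ha : a ∈ Submodule.span W.K (Wds Φ σ c Λ D X Z)) :
    W.map g a ∈ Submodule.span W.K (Wds Φ σ c Λ D X Z') := by
  induction ha using Submodule.span_induction with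
  | mem v hv =>
    obtain ⟨L, j, z, hL, hc, rfl⟩ := hv
    refine Submodule.subset_span ⟨L.map (Lt.pull g), j, ops.pull g z, fun l hl => ?_,
      ops.pull_mem _ hc, ?_⟩
    · obtain ⟨l', hl', rfl⟩ := List.mem_map.1 hl
      exact hL l' hl'
    rw [wval_pull, W.cl_pull, map_mul]
  | zero => rw [map_zero]; exact Submodule.zero_mem _
  | add x y _ _ hx hy => rw [map_add]; exact Submodule.add_mem _ hx hy
  | smul c x _ hx => rw [map_smul]; exact Submodule.smul_mem _ _ hx

/-- **The cohomology of the products is spanned by words.** -/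
theorem span_wds (h : ∀ i, IsGenerated Φ σ c Λ (D i) (X i)) (hZ : IsProduct W X Z) (z : W.H Z) :
    z ∈ Submodule.span W.K (Wds Φ σ c Λ D X Z) := by
  induction hZ with
  | alg h => exact alg_wds (h z)
  | base i =>
    have h1 := (h i).generated z
    induction h1 using Algebra.adjoin_induction with
    | mem x hx =>
      rcases hx with hx | ⟨d, hd, hx⟩
      · exact alg_wds hx
      · have h2 := (h i).spanned d hd hx
        refine Submodule.span_mono ?_ h2
        rintro x ⟨s, hs, hx⟩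
        refine ⟨[⟨i, 𝟙 (X i), d, s, x, hx⟩], 0, (X i).V.fundCycle, fun l hl => ?_,
          (X i).V.fundCycle_mem, ?_⟩
        · rw [List.mem_singleton.1 hl]
          exact ⟨hd, hs⟩
        rw [wval_cons, wval_nil, mul_one, W.cl_fund, mul_one]
        exact (W.map_id (X i) x).symm
    | algebraMap c =>
      rw [Algebra.algebraMap_eq_smul_one]
      exact Submodule.smul_mem _ _ (alg_wds one_mem_algSpan)
    | add x y _ _ hx hy => exact Submodule.add_mem _ hx hy
    | mul x y _ _ hx hy => exact mul_wds hx hy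
  | prod hY hZ ihY ihZ =>
    rename_i Y Z
    obtain ⟨t, rfl⟩ := (W.kunneth Y Z).2 z
    induction t using TensorProduct.induction_on with
    | zero => rw [map_zero]; exact Submodule.zero_mem _
    | add x y hx hy => rw [map_add]; exact Submodule.add_mem _ hx hy
    | tmul x y => exact mul_wds (pull_wds _ (ihY x)) (pull_wds _ (ihZ y))

section eig

variable [CharZero K] [Algebra.IsAlgebraic ℚ K]

/-- the eigenvalue of a word -/
lemma word_eig {t M : ℕ} (L : List (Lt Φ σ X Z)) (hL : ∀ l ∈ L, l.At t M) :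
    ∃ ω : W.K, wval L ∈ (frob Φ Z t).maxGenEigenspace ω ∧
      HasSlopes p σ (Φ.e Z * t) (L.map fun l => l.d).sum (L.map fun l => l.s).sum M ω := by
  induction L with
  | nil =>
    refine ⟨1, ?_, ?_⟩
    · refine eig_mem_gen ?_
      rw [wval_nil, frob_one, one_smul]
    · exact slopes_one M
  | cons a L ih =>
    obtain ⟨ω, h1, h2⟩ := ih fun l hl => hL l (List.mem_cons_of_mem _ hl)
    obtain ⟨ω', h3, h4⟩ := hL a List.mem_cons_self
    refine ⟨ω' * ω, ?_, ?_⟩
    · rw [wval_cons]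
      exact mul_gen h3 h1
    · rw [List.map_cons, List.map_cons, List.sum_cons, List.sum_cons]
      exact slopes_mul h4 h2

lemma slopes_card (t j M : ℕ) :
    HasSlopes p σ (Φ.e Z * t) (2 * j) 0 M ((card Φ Z t : W.K) ^ j) := by
  have h1 : (card Φ Z t : W.K) ^ j = (p : W.K) ^ (Φ.e Z * t * j) := by
    rw [W534.card, Nat.cast_pow, ← pow_mul]
  rw [h1]
  exact slopes_p j M

end eig

end Pool.Agent.Run7.h142.CE
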