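import Pool.Agent.Run7.h142.CE.Fun
import Pool.Agent.Run7.h142.CE.Letter
import Pool.Agent.Run7.h142.GT.TateLem

/-!
# Words with sum zero are algebraic (helper142)
-/

set_option autoImplicit false
set_option linter.unusedSectionVars false

open CategoryTheory AlgebraicGeometry
open scoped TensorProduct

universe u v w w'

namespace Pool.Agent.Run7.h142.CE

open Pool.Agent.H914 Pool.Agent.H914.VarClass Pool.Agent.H914.VarClass.Obj
  Pool.Agent.H914.WeilCohomology Pool.Agent.H281R3.HT Pool.Agent.W534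
  Pool.Agent.W458.RK Pool.Agent.W458.MF Pool.Agent.TH132.A Pool.Agent.W536.RR
  Pool.Agent.TH121.KT
open Pool.Agent.Run7.h142.GT (iterate_eq)

variable {k : Type u} [Field k] {𝒱 : VarClass k} {ops : CycleOps 𝒱}
  {W : WeilCohomology.{u, v} ops} {p : ℕ} [Fact p.Prime] {Φ : FrobSystem W p}
  {K : Type} [Field K] {σ : K →+* W.K} {c : K →+* K} {Λ : AddSubgroup ℝ}
  {J : Type w} {C : J → 𝒱.Obj} {I : Type w'} {X : I → 𝒱.Obj} {D : I → ℕ} {Z Z' : 𝒱.Obj}
  {S : ∀ Z : 𝒱.Obj, Submodule W.K (W.H Z)}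

/-- the label of a letter, with the information from which variety `X i` it comes (and `none` if it
comes from one of the varieties `C j`) -/
def lab (l : Lt Φ σ (Sum.elim C X) Z) : Option I × ℕ × ((K →+* PadicAlgCl p) → ℝ) :=
  (l.i.getRight?, l.d, l.s)

theorem exists_left {i : J ⊕ I} (h : i.getRight? = none) : ∃ j, i = Sum.inl j := by
  rcases i with j | i
  · exact ⟨j, rfl⟩
  · exact absurd h (by simp)

theorem exists_right {i : J ⊕ I} {i' : I} (h : i.getRight? = some i') : i = Sum.inr i' := by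
  rcases i with j | i
  · exact absurd h (by simp)
  · rw [Sum.getRight?_inr, Option.some_inj] at h
    rw [h]

/-- all words with the given labels are in the system -/
def AlgL (Φ : FrobSystem W p) (σ : K →+* W.K) (S : ∀ Z : 𝒱.Obj, Submodule W.K (W.H Z))
    (C : J → 𝒱.Obj) (X : I → 𝒱.Obj) (l : List (Option I × ℕ × ((K →+* PadicAlgCl p) → ℝ))) : Prop :=
  ∀ (Z : 𝒱.Obj) (G : List (Lt Φ σ (Sum.elim C X) Z)), G.map lab = l → wval G ∈ S Z

theorem IsStable.cycles (hS : IsStable W S) (Z : 𝒱.Obj) : algSpan W Z ≤ S Z := (hS.ring Z).le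

theorem IsStable.mul (hS : IsStable W S) (Z : 𝒱.Obj) (x : W.H Z) (hx : x ∈ S Z) (y : W.H Z)
    (hy : y ∈ S Z) : x * y ∈ S Z := (hS.ring Z).mul x hx y hy

theorem algL_nil (hS : IsStable W S) : AlgL Φ σ S C X [] := by
  intro Z G h
  rw [List.map_eq_nil_iff] at h
  rw [h, wval_nil]
  exact hS.cycles Z one_mem_algSpan

theorem algL_append (hS : IsStable W S) {l l' : List (Option I × ℕ × ((K →+* PadicAlgCl p) → ℝ))}
    (h : AlgL Φ σ S C X l)
    (h' : AlgL Φ σ S C X l') : AlgL Φ σ S C X (l ++ l') := by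
  intro Z G h1
  obtain ⟨G₁, G₂, rfl, h2, h3⟩ := List.map_eq_append_iff.1 h1
  rw [wval_append]
  exact hS.mul Z _ (h Z G₁ h2) _ (h' Z G₂ h3)

theorem perm_lift {A B : Type*} {g : A → B} {l l' : List B} (h : l.Perm l') :
    ∀ G : List A, G.map g = l → ∃ G' : List A, G.Perm G' ∧ G'.map g = l' := by
  induction h with
  | nil => exact fun G hG => ⟨G, List.Perm.refl _, hG⟩
  | cons x _ ih =>
    intro G hG
    obtain ⟨a, G₁, rfl, ha, h1⟩ := List.map_eq_cons_iff.1 hG
    obtain ⟨G', h2, h3⟩ := ih G₁ h1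
    exact ⟨a :: G', h2.cons a, by rw [List.map_cons, ha, h3]⟩
  | swap x y l =>
    intro G hG
    obtain ⟨a, G₁, rfl, ha, h1⟩ := List.map_eq_cons_iff.1 hG
    obtain ⟨b, G₂, rfl, hb, h2⟩ := List.map_eq_cons_iff.1 h1
    exact ⟨b :: a :: G₂, List.Perm.swap _ _ _, by
      rw [List.map_cons, List.map_cons, ha, hb, h2]⟩
  | trans _ _ ih1 ih2 =>
    intro G hG
    obtain ⟨G₁, h1, h2⟩ := ih1 G hG
    obtain ⟨G₂, h3, h4⟩ := ih2 G₁ h2
    exact ⟨G₂, h1.trans h3, h4⟩

theorem algL_perm {l l' : List (Option I × ℕ × ((K →+* PadicAlgCl p) → ℝ))} (hl : l.Perm l')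
    (h : AlgL Φ σ S C X l) : AlgL Φ σ S C X l' := by
  intro Z G h1
  obtain ⟨G', h2, h3⟩ := perm_lift hl.symm G h1
  obtain ⟨c, hc⟩ := wval_perm h2
  rw [hc]
  exact Submodule.smul_mem _ _ (h Z G' h3)

theorem map_labels {Y : 𝒱.Obj} (G : List (Lt Φ σ (Sum.elim C X) Y)) {B : Type*}
    (g : (Option I × ℕ × ((K →+* PadicAlgCl p) → ℝ)) → B) :
    (G.map fun l => g (lab l)) = (G.map lab).map g := by
  rw [List.map_map]
  rfl

/-- a word comes from the product of the varieties of its letters -/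
lemma exists_tuple (a : Lt Φ σ (Sum.elim C X) Z) (B : List (Lt Φ σ (Sum.elim C X) Z)) :
    ∃ (g : Z ⟶ prodOf (Sum.elim C X a.i) (B.map fun l => Sum.elim C X l.i))
      (G : List (Lt Φ σ (Sum.elim C X)
        (prodOf (Sum.elim C X a.i) (B.map fun l => Sum.elim C X l.i)))),
      G.map lab = (a :: B).map lab ∧
      wval (a :: B) = W.map g (wval G) := by
  induction B generalizing a with
  | nil =>
    refine ⟨a.f, [⟨a.i, 𝟙 (Sum.elim C X a.i), a.d, a.s, a.x, a.h⟩], rfl, ?_⟩
    change wval [a] = W.map a.f (wval [⟨a.i, 𝟙 (Sum.elim C X a.i), a.d, a.s, a.x, a.h⟩])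
    rw [wval_cons, wval_nil, wval_cons, wval_nil, mul_one, mul_one]
    change W.map a.f a.x = W.map a.f (W.map (𝟙 (Sum.elim C X a.i)) a.x)
    rw [W.map_id]
  | cons b B ih =>
    obtain ⟨g, G, h1, h2⟩ := ih b
    let Y := prodOf (Sum.elim C X b.i) (B.map fun l => Sum.elim C X l.i)
    let a' : Lt Φ σ (Sum.elim C X) ((Sum.elim C X a.i).prod Y) :=
      ⟨a.i, fst (Sum.elim C X a.i) Y, a.d, a.s, a.x, a.h⟩
    refine ⟨lift a.f g, a' :: G.map (Lt.pull (snd (Sum.elim C X a.i) Y)), ?_, ?_⟩
    · change lab a' :: (G.map (Lt.pull (snd (Sum.elim C X a.i) Y))).map lab = lab a :: _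
      rw [List.map_map]
      congr 1
    · change wval (a :: b :: B) =
        W.map (lift a.f g) (wval (a' :: G.map (Lt.pull (snd (Sum.elim C X a.i) Y))))
      rw [wval_cons a (b :: B), wval_cons a', wval_pull, map_mul, h2]
      congr 1
      · change W.map a.f a.x = W.map (lift a.f g) (W.map (fst (Sum.elim C X a.i) Y) a.x)
        rw [← W.map_comp, lift_fst]
      · rw [← W.map_comp, lift_snd]

/-- letters of weight zero -/
theorem algL_zero (hS : IsStable W S) (b : Option I) (s : (K →+* PadicAlgCl p) → ℝ) :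
    AlgL Φ σ S C X [(b, 0, s)] := by
  intro Z G h
  obtain ⟨a, G₁, rfl, ha, h1⟩ := List.map_eq_cons_iff.1 h
  rw [List.map_eq_nil_iff] at h1
  rw [h1, wval_cons, wval_nil, mul_one]
  have h2 : a.d = 0 := congrArg (fun x => x.2.1) ha
  have h3 := a.val_mem
  rw [h2, W.gr_zero] at h3
  obtain ⟨r, hr⟩ := Submodule.mem_span_singleton.1 h3
  rw [← hr]
  exact Submodule.smul_mem _ _ (hS.cycles Z one_mem_algSpan)

/-- the varieties of the letters which come from the `C j` -/
theorem exists_list (B : List (Lt Φ σ (Sum.elim C X) Z))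
    (hB : ∀ b ∈ B, (lab b).1 = none) :
    ∃ L : List J, L.length = B.length ∧ (B.map fun l => Sum.elim C X l.i) = L.map C := by
  induction B with
  | nil => exact ⟨[], rfl, rfl⟩
  | cons b B ih =>
    obtain ⟨L, h1, h2⟩ := ih fun a ha => hB a (List.mem_cons_of_mem _ ha)
    have h3 := hB b List.mem_cons_self
    obtain ⟨j, hj⟩ := exists_left h3
    refine ⟨j :: L, by rw [List.length_cons, List.length_cons, h1], ?_⟩
    rw [List.map_cons, List.map_cons, h2, hj]
    rfl

section main

variable [CharZero K] [Algebra.IsAlgebraic ℚ K]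

/-- **Words are in the system if it contains the Tate classes of the product.** -/
theorem alg_of_test (hS : IsStable W S)
    {l : List (Option I × ℕ × ((K →+* PadicAlgCl p) → ℝ))} {m : ℕ}
    (hT : ∀ (Z : 𝒱.Obj) (a : Lt Φ σ (Sum.elim C X) Z) (B : List (Lt Φ σ (Sum.elim C X) Z)),
      (a :: B).map lab = l → ∀ b,
        HasTate Φ S (prodOf (Sum.elim C X a.i) (B.map fun l => Sum.elim C X l.i)) b m)
    (hd : (l.map fun x => x.2.1).sum = 2 * m) (hs : (l.map fun x => x.2.2).sum = 0) :
    AlgL Φ σ S C X l := by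
  classical
  intro Z G hG
  rcases G with _ | ⟨a, B⟩
  · rw [wval_nil]
    exact hS.cycles Z one_mem_algSpan
  obtain ⟨g, G', hG', hv⟩ := exists_tuple a B
  rw [hG] at hG'
  rw [hv]
  refine hS.pull _ _ g _ ?_
  have hdeg : (G'.map fun l => l.d).sum = 2 * m := by
    have h1 : (G'.map fun l => l.d) = l.map fun x => x.2.1 := by
      rw [← hG']
      exact map_labels G' fun x => x.2.1
    rw [h1, hd]
  have hsl : (G'.map fun l => l.s).sum = 0 := by
    have h1 : (G'.map fun l => l.s) = l.map fun x => x.2.2 := by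
      rw [← hG']
      exact map_labels G' fun x => x.2.2
    rw [h1, hs]
  obtain ⟨t, M, ht, hM, hl⟩ := word_lev G'
  have hl' := hl 1 one_pos
  rw [mul_one] at hl'
  obtain ⟨ω, h1, h2⟩ := word_eig G' hl'
  obtain ⟨R, hR, h3⟩ := root_of_slopes h2 hdeg hsl hM
  have h4 := gen_pow_of_gen h1 R
  rw [← frob_mul_eq, Module.End.mem_maxGenEigenspace] at h4
  obtain ⟨b, hb⟩ := h4
  refine hT Z a B hG b (t * R) (Nat.mul_pos ht hR) (wval G') ?_ ?_
  · rw [← hdeg]
    exact wval_gr G'
  · have h5 : ω ^ R = (p : W.K) ^ (Φ.e (prodOf (Sum.elim C X a.i)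
        (B.map fun l => Sum.elim C X l.i)) * (t * R) * m) := by
      rw [h3, ← pow_mul]
      congr 1
      ring
    rw [h5] at hb
    refine Eq.trans ?_ hb
    exact iterate_eq (frob Φ (prodOf (Sum.elim C X a.i)
      (B.map fun l => Sum.elim C X l.i)) (t * R)) _ b (wval G')

/-- words with four letters -/
theorem alg_four (hS : IsStable W S) (hT : ForSmall C X D fun Z m => ∀ b, HasTate Φ S Z b m)
    {f₁ f₂ f₃ f₄ : (K →+* PadicAlgCl p) → ℝ} (h : f₁ + f₂ + f₃ + f₄ = 0) :
    AlgL Φ σ S C X [(none, 1, f₁), (none, 1, f₂), (none, 1, f₃), (none, 1, f₄)] := by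
  refine alg_of_test hS (m := 2) (fun Z a B hB => ?_) rfl ?_
  · rw [List.map_cons] at hB
    obtain ⟨ha, hB'⟩ := List.cons_eq_cons.1 hB
    obtain ⟨j, hj⟩ := exists_left (congrArg (fun x => x.1) ha)
    have hlen : B.length = 3 := by
      have := congrArg List.length hB'
      rwa [List.length_map] at this
    obtain ⟨L, h1, h2⟩ := exists_list B (fun b hb => by
      have h3 : lab b ∈ B.map lab := List.mem_map_of_mem hb
      rw [hB'] at h3
      simp only [List.mem_cons, List.not_mem_nil, or_false] at h3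
      rcases h3 with h3 | h3 | h3 <;> rw [h3])
    rw [h2, hj]
    rw [hlen] at h1
    obtain ⟨j₂, j₃, j₄, rfl⟩ := List.length_eq_three.1 h1
    exact hT.2 j j₂ j₃ j₄
  · change f₁ + (f₂ + (f₃ + (f₄ + 0))) = 0
    rw [add_zero, ← add_assoc, ← add_assoc]
    exact h

/-- words with one letter from a variety `X i` -/
theorem alg_mixed (hS : IsStable W S) (hT : ForSmall C X D fun Z m => ∀ b, HasTate Φ S Z b m)
    {d : ℕ} {s : (K →+* PadicAlgCl p) → ℝ} {P : List ((K →+* PadicAlgCl p) → ℝ)} {i : I}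
    (hi : d ≤ D i) (hP : P.length = d) (hs : P.sum = s) :
    AlgL Φ σ S C X ((some i, d, s) :: P.map fun a => (none, 1, -a)) := by
  refine alg_of_test hS (m := d) (fun Z a B hB => ?_) ?_ ?_
  · rw [List.map_cons] at hB
    obtain ⟨ha, hB'⟩ := List.cons_eq_cons.1 hB
    have hj := exists_right (congrArg (fun x => x.1) ha)
    have hlen : B.length = d := by
      have := congrArg List.length hB'
      rwa [List.length_map, List.length_map, hP] at this
    obtain ⟨L, h1, h2⟩ := exists_list B (fun b hb => by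
      have h3 : lab b ∈ B.map lab := List.mem_map_of_mem hb
      rw [hB'] at h3
      obtain ⟨x, -, hx⟩ := List.mem_map.1 h3
      rw [← hx])
    rw [h2, hj]
    have h3 := hT.1 i L (by rw [h1, hlen]; exact hi)
    rw [h1, hlen] at h3
    exact h3
  · rw [List.map_cons, List.sum_cons, List.map_map]
    have h3 : ((fun x : Option I × ℕ × ((K →+* PadicAlgCl p) → ℝ) => x.2.1) ∘
        fun a : (K →+* PadicAlgCl p) → ℝ => ((none : Option I), (1 : ℕ), -a)) =
        fun _ => 1 := rfl
    rw [h3, List.map_const', List.sum_replicate, hP, smul_eq_mul, mul_one]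
    change d + d = 2 * d
    ring
  · rw [List.map_cons, List.sum_cons, List.map_map]
    have h3 : ((fun x : Option I × ℕ × ((K →+* PadicAlgCl p) → ℝ) => x.2.2) ∘
        fun a : (K →+* PadicAlgCl p) → ℝ => ((none : Option I), (1 : ℕ), -a)) =
        fun a => -a := rfl
    have hneg : ∀ L : List ((K →+* PadicAlgCl p) → ℝ), (L.map fun a => -a).sum = -L.sum := by
      intro L
      induction L with
      | nil => simp
      | cons a L ih => rw [List.map_cons, List.sum_cons, List.sum_cons, ih]; abel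
    rw [h3, hneg, hs]
    exact add_neg_cancel s

/-- the weight and the slopes of a word with a nonzero trace -/
theorem slopes_of_tr {I : Type w} {X : I → 𝒱.Obj} (L : List (Lt Φ σ X Z)) {j : ℕ}
    {z : Z.Cycles} (hc : Z.IsCyc j z)
    (htr : W.tr Z (wval L * W.cl Z z) ≠ 0) : (L.map fun l => l.s).sum = 0 := by
  obtain ⟨a, M, ha, hM, hl⟩ := word_lev L
  obtain ⟨b, hb, hcyc⟩ := Φ.cyc hc
  have hcyc : frob Φ Z b (W.cl Z z) = (card Φ Z b : W.K) ^ j • W.cl Z z := by
    rw [card_pow]
    exact hcyc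
  set T := a * b with hT
  have hT0 : 0 < T := Nat.mul_pos ha hb
  obtain ⟨ω, h1, h2⟩ := word_eig L (hl b hb)
  have h3 : frob Φ Z T (W.cl Z z) = (card Φ Z T : W.K) ^ j • W.cl Z z := by
    rw [hT, mul_comm a b]
    exact eig_pow hcyc a
  have h4 : wval L * W.cl Z z ∈ (frob Φ Z T).maxGenEigenspace (ω * (card Φ Z T : W.K) ^ j) :=
    mul_gen h1 (eig_mem_gen h3)
  have h5 : ∀ v, W.tr Z (frob Φ Z T v) = (card Φ Z T : W.K) ^ Z.dim * W.tr Z v := by
    intro v
    rw [card_pow]
    exact Pool.Agent.W534.tr_iter Φ T _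
  have h6 : ω * (card Φ Z T : W.K) ^ j = (card Φ Z T : W.K) ^ Z.dim := by
    by_contra hne
    rw [Module.End.mem_maxGenEigenspace] at h4
    obtain ⟨n, hn⟩ := h4
    have h7 : ∀ (n : ℕ) (v : W.H Z), W.tr Z (((frob Φ Z T -
        (ω * (card Φ Z T : W.K) ^ j) • (1 : Module.End W.K (W.H Z))) ^ n) v) =
        ((card Φ Z T : W.K) ^ Z.dim - ω * (card Φ Z T : W.K) ^ j) ^ n * W.tr Z v := by
      intro n
      induction n with
      | zero =>
        intro v
        rw [pow_zero, pow_zero, one_mul]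
        rfl
      | succ n ih =>
        intro v
        rw [pow_succ, Module.End.mul_apply, ih, LinearMap.sub_apply, LinearMap.smul_apply,
          Module.End.one_apply, map_sub, map_smul, h5, smul_eq_mul]
        ring
    have h8 := h7 n (wval L * W.cl Z z)
    rw [hn, map_zero] at h8
    exact mul_ne_zero (pow_ne_zero n (sub_ne_zero.2 (Ne.symm hne))) htr h8.symm
  have h7 := slopes_mul h2 (slopes_card (Φ := Φ) (σ := σ) (Z := Z) T j M)
  have h8 := slopes_of_root h7 (Nat.mul_pos (Φ.e_pos _) hT0) hM (c := (Z.dim : ℤ)) (N := 1)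
    one_pos (by
      rw [h6, pow_one, pow_one, zpow_natCast, W534.card, Nat.cast_pow])
  rw [add_zero] at h8
  exact h8.2

/-- dual letters -/
theorem exists_dual (hC : IsComplete Φ σ c Λ C) {s : (K →+* PadicAlgCl p) → ℝ}
    (hs : IsSlopeFunction p c Λ 1 s) :
    ∃ (i : J) (x y : W.H (C i)) (j : ℕ) (z : (C i).Cycles), IsEigen Φ σ (C i) 1 s x ∧
      IsEigen Φ σ (C i) 1 (-s) y ∧ (C i).IsCyc j z ∧ W.tr (C i) (x * y * W.cl (C i) z) ≠ 0 := by
  obtain ⟨i, x, hx0, hx⟩ := hC.occurs s hs
  obtain ⟨z₀, hz₀, hperf⟩ := hC.perfect i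
  obtain ⟨y, hy, hxy₀⟩ := hperf x hx.mem hx0
  have hexz : ∃ j z, (C i).IsCyc j z ∧ W.tr (C i) (x * y * W.cl (C i) z) ≠ 0 := by
    by_contra hno
    push Not at hno
    refine hxy₀ ?_
    refine algSpan_induction (p := fun c => W.tr (C i) (x * y * c) = 0)
      (by rw [mul_zero, map_zero])
      (fun a b ha hb => by rw [mul_add, map_add, ha, hb, add_zero])
      (fun t a ha => by rw [mul_smul_comm, map_smul, ha, smul_zero])
      (fun i' z' hz' => hno i' z' hz') hz₀
  obtain ⟨j, z, hz, hxy⟩ := hexz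
  have hy' := (hC.generated i).spanned 1 le_rfl hy
  have hex : ∃ s' y', IsEigen Φ σ (C i) 1 s' y' ∧ W.tr (C i) (x * y' * W.cl (C i) z) ≠ 0 := by
    by_contra hno
    push Not at hno
    refine hxy ?_
    clear hxy hy hxy₀
    induction hy' using Submodule.span_induction with
    | mem v hv =>
      obtain ⟨s', -, hv⟩ := hv
      exact hno s' v hv
    | zero => rw [mul_zero, zero_mul, map_zero]
    | add a b _ _ ha hb => rw [mul_add, add_mul, map_add, ha, hb, add_zero]
    | smul t a _ ha => rw [mul_smul_comm, smul_mul_assoc, map_smul, ha, smul_zero]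
  obtain ⟨s', y', hyL, hy2⟩ := hex
  let lx : Lt Φ σ C (C i) := ⟨i, 𝟙 (C i), 1, s, x, hx⟩
  have hvx : lx.val = x := W.map_id (C i) x
  let ly : Lt Φ σ C (C i) := ⟨i, 𝟙 (C i), 1, s', y', hyL⟩
  have hvy : ly.val = y' := W.map_id (C i) y'
  have h2 : W.tr (C i) (wval [lx, ly] * W.cl (C i) z) ≠ 0 := by
    rw [wval_cons, wval_cons, wval_nil, mul_one, hvx, hvy]
    exact hy2
  have h3 := slopes_of_tr [lx, ly] hz h2
  have h4 : s + s' = 0 := by
    have h5 : (([lx, ly] : List (Lt Φ σ C (C i))).map fun l => l.s).sum = s + s' := by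
      change s + (s' + 0) = s + s'
      rw [add_zero]
    rw [← h5]
    exact h3
  have h5 : s' = -s := eq_neg_of_add_eq_zero_right h4
  subst h5
  exact ⟨i, x, y', j, z, hx, hyL, hz, hy2⟩

/-- cancellation of pairs -/
theorem algL_cancel (hS : IsStable W S) (hC : IsComplete Φ σ c Λ C)
    {s : (K →+* PadicAlgCl p) → ℝ} (hs : IsSlopeFunction p c Λ 1 s)
    {l : List (Option I × ℕ × ((K →+* PadicAlgCl p) → ℝ))}
    (h : AlgL Φ σ S C X ((none, 1, s) :: (none, 1, -s) :: l)) :
    AlgL Φ σ S C X l := by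
  classical
  intro Z G h1
  obtain ⟨i, x, y, j, z, hx, hy, hz, hxy⟩ := exists_dual hC hs
  let lx : Lt Φ σ (Sum.elim C X) (Z.prod (C i)) := ⟨Sum.inl i, snd Z (C i), 1, s, x, hx⟩
  let ly : Lt Φ σ (Sum.elim C X) (Z.prod (C i)) := ⟨Sum.inl i, snd Z (C i), 1, -s, y, hy⟩
  have h2 := h (Z.prod (C i)) (lx :: ly :: G.map (Lt.pull (fst Z (C i)))) (by
    rw [List.map_cons, List.map_cons, List.map_map, ← h1]
    rfl)
  have h3 : wval (lx :: ly :: G.map (Lt.pull (fst Z (C i)))) =
      W.map (fst Z (C i)) (wval G) * W.map (snd Z (C i)) (x * y) := by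
    rw [wval_cons, wval_cons, wval_pull, ← mul_assoc, map_mul]
    change W.map (snd Z (C i)) x * W.map (snd Z (C i)) y * _ = _
    rw [← map_mul]
    have h4 : W.map (snd Z (C i)) (x * y) ∈ W.gr _ (2 * 1) := by
      rw [two_mul]
      exact W.map_mem _ (W.mul_mem hx.mem hy.mem)
    exact W.even_comm h4 _
  have h4 := hS.mul _ _ h2 _ (hS.pull _ _ (snd Z (C i)) _
    (hS.cycles _ (cl_mem_algSpan (W := W) hz)))
  rw [h3, mul_assoc, ← map_mul] at h4
  have h5 := hS.push _ _ (fst Z (C i)) _ h4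
  rw [Pool.Agent.H281R3.HT.push_fst (wval G)
    (W.mul_mem (W.mul_mem hx.mem hy.mem) (W.cl_mem hz))] at h5
  exact (Submodule.smul_mem_iff _ hxy).1 h5

/-- cancellation of lists -/
theorem algL_cancel_list (hS : IsStable W S) (hC : IsComplete Φ σ c Λ C)
    (L : List ((K →+* PadicAlgCl p) → ℝ)) (hL : ∀ a ∈ L, IsSlopeFunction p c Λ 1 a)
    {l : List (Option I × ℕ × ((K →+* PadicAlgCl p) → ℝ))}
    (h : AlgL Φ σ S C X ((L.map fun a => (none, 1, a)) ++ (L.map fun a => (none, 1, -a)) ++ l)) :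
    AlgL Φ σ S C X l := by
  induction L with
  | nil => exact h
  | cons a L ih =>
    refine ih (fun b hb => hL b (List.mem_cons_of_mem _ hb)) ?_
    refine algL_cancel hS hC (hL a List.mem_cons_self) (algL_perm ?_ h)
    rw [← Multiset.coe_eq_coe]
    simp only [List.map_cons, List.cons_append, List.append_assoc, ← Multiset.cons_coe,
      ← Multiset.singleton_add, ← Multiset.coe_add]
    abel

theorem algL_one (hS : IsStable W S) (hC : IsComplete Φ σ c Λ C)
    (hT : ForSmall C X D fun Z m => ∀ b, HasTate Φ S Z b m)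
    (L : List ((K →+* PadicAlgCl p) → ℝ)) (hL : ∀ a ∈ L, IsSlopeFunction p c Λ 1 a)
    (heven : Even L.length) (hsum : L.sum = 0) :
    AlgL Φ σ S C X (L.map fun a => (none, 1, a)) := by
  refine even_induction (P := fun L => AlgL Φ σ S C X (L.map fun a => (none, 1, a))) ?_ ?_ ?_ L
    hL heven hsum
  · intro L L' h h'
    exact algL_perm (h.map _) h'
  · intro m
    induction m with
    | zero => exact algL_nil hS
    | succ m ih =>
      have h1 : List.replicate (2 * (m + 1)) (0 : (K →+* PadicAlgCl p) → ℝ) =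
          [0, 0] ++ List.replicate (2 * m) 0 := by
        rw [show 2 * (m + 1) = 2 + 2 * m by ring, ← List.replicate_append_replicate]
        rfl
      rw [h1, List.map_append]
      refine algL_append hS (algL_cancel hS hC (sf_zero (p := p) (c := c) (Λ := Λ) (d := 1))
        (alg_four hS hT ?_)) ih
      rw [add_zero, add_zero, add_neg_cancel]
  · intro f g u u' L hf hg hu hu' hadd h
    have h1 : AlgL Φ σ S C X [(none, 1, f), (none, 1, g), (none, 1, -u), (none, 1, -u')] := by
      refine alg_four hS hT ?_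
      rw [hadd]
      abel
    have h2 := algL_append hS h1 h
    refine algL_cancel hS hC hu' (algL_cancel hS hC hu (algL_perm ?_ h2))
    rw [← Multiset.coe_eq_coe]
    simp only [List.map_cons, List.cons_append, List.nil_append, ← Multiset.cons_coe,
      ← Multiset.singleton_add]
    abel

/-- the letters with the label `x` can be replaced -/
theorem algL_replace (hS : IsStable W S) (hC : IsComplete Φ σ c Λ C)
    (hT : ForSmall C X D fun Z m => ∀ b, HasTate Φ S Z b m) {o : Option I} {d : ℕ}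
    {s : (K →+* PadicAlgCl p) → ℝ} (ho : ∀ i, o = some i → d ≤ D i) (ho' : o = none → d ≤ 1)
    (hs : IsSlopeFunction p c Λ d s) {P : List ((K →+* PadicAlgCl p) → ℝ)} (hP1 : P.length = d)
    (hP2 : ∀ a ∈ P, IsSlopeFunction p c Λ 1 a) (hP3 : P.sum = s) :
    AlgL Φ σ S C X ((o, d, s) :: P.map fun a => (none, 1, -a)) := by
  rcases o with _ | i
  · rcases Nat.lt_or_ge d 1 with h0 | h0
    · have h1 : d = 0 := by omega
      subst h1
      rw [List.length_eq_zero_iff] at hP1
      subst hP1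
      exact algL_zero hS _ _
    · have h1 : d = 1 := le_antisymm (ho' rfl) h0
      subst h1
      obtain ⟨a, rfl⟩ := List.length_eq_one_iff.1 hP1
      have h2 : s = a := by
        rw [← hP3]
        exact add_zero a
      subst h2
      refine algL_one (L := [s, -s]) hS hC hT ?_ ?_ ?_
      · intro b hb
        simp only [List.mem_cons, List.not_mem_nil, or_false] at hb
        rcases hb with rfl | rfl
        · exact hs
        · exact sf_neg hs
      · exact ⟨1, rfl⟩
      · change s + (-s + 0) = 0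
        rw [add_zero, add_neg_cancel]
  · exact alg_mixed hS hT (ho i rfl) hP1 hP3

/-- **Words with sum zero are algebraic.** -/
theorem algL_all (hS : IsStable W S) (hΛ : (1 / 2 : ℝ) ∈ Λ) (hC : IsComplete Φ σ c Λ C)
    (hT : ForSmall C X D fun Z m => ∀ b, HasTate Φ S Z b m)
    (l : List (Option I × ℕ × ((K →+* PadicAlgCl p) → ℝ)))
    (hl : ∀ x ∈ l, (∀ i, x.1 = some i → x.2.1 ≤ D i) ∧ (x.1 = none → x.2.1 ≤ 1) ∧
      IsSlopeFunction p c Λ x.2.1 x.2.2) :
    ∀ (L : List ((K →+* PadicAlgCl p) → ℝ)), (∀ a ∈ L, IsSlopeFunction p c Λ 1 a) →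
      Even ((l.map fun x => x.2.1).sum + L.length) → (l.map fun x => x.2.2).sum + L.sum = 0 →
      AlgL Φ σ S C X (l ++ L.map fun a => (none, 1, a)) := by
  induction l with
  | nil =>
    intro L hL heven hsum
    rw [List.map_nil, List.sum_nil, zero_add] at heven hsum
    exact algL_one hS hC hT L hL heven hsum
  | cons x l ih =>
    obtain ⟨o, d, s⟩ := x
    intro L hL heven hsum
    obtain ⟨ho, ho', hs⟩ := hl (o, d, s) List.mem_cons_self
    obtain ⟨P, hP1, hP2, hP3⟩ := exists_pieces hΛ hs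
    have h1 := ih (fun x hx => hl x (List.mem_cons_of_mem _ hx)) (P ++ L) (fun a ha => by
      rcases List.mem_append.1 ha with h | h
      · exact hP2 a h
      · exact hL a h) (by
      rw [List.length_append, hP1]
      rw [List.map_cons, List.sum_cons] at heven
      rwa [← add_assoc, add_comm _ d]) (by
      rw [List.sum_append, hP3]
      rw [List.map_cons, List.sum_cons] at hsum
      rw [← add_assoc, add_comm _ s]
      exact hsum)
    have h2 := algL_replace (X := X) hS hC hT ho ho' hs hP1 hP2 hP3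
    refine algL_cancel_list hS hC P hP2 (algL_perm ?_ (algL_append hS h2 h1))
    rw [← Multiset.coe_eq_coe]
    simp only [List.map_append, List.cons_append, ← Multiset.cons_coe,
      ← Multiset.singleton_add, ← Multiset.coe_add, List.append_assoc]
    abel

/-- **Words of even degree with sum zero are in the system.** -/
theorem word_mem (hS : IsStable W S) (hΛ : (1 / 2 : ℝ) ∈ Λ) (hC : IsComplete Φ σ c Λ C)
    (hT : ForSmall C X D fun Z m => ∀ b, HasTate Φ S Z b m)
    (L : List (Lt Φ σ (Sum.elim C X) Z))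
    (hL : ∀ l ∈ L, l.d ≤ Sum.elim (fun _ => 1) D l.i ∧ IsSlopeFunction p c Λ l.d l.s)
    (hdeg : Even (L.map fun l => l.d).sum) (hsum : (L.map fun l => l.s).sum = 0) :
    wval L ∈ S Z := by
  have h1 : ((L.map lab).map fun x => x.2.1).sum = (L.map fun l => l.d).sum := by
    rw [← map_labels L fun x => x.2.1]
    rfl
  have h2 : ((L.map lab).map fun x => x.2.2).sum = (L.map fun l => l.s).sum := by
    rw [← map_labels L fun x => x.2.2]
    rfl
  have h3 := algL_all hS hΛ hC hT (L.map lab) (fun x hx => by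
    obtain ⟨l, hl, rfl⟩ := List.mem_map.1 hx
    obtain ⟨h4, h5⟩ := hL l hl
    refine ⟨fun i hi => ?_, fun hi => ?_, h5⟩
    · have h6 := exists_right hi
      rw [h6] at h4
      exact h4
    · obtain ⟨j, h6⟩ := exists_left hi
      rw [h6] at h4
      exact h4) [] (fun a ha => absurd ha List.not_mem_nil) (by
      rw [List.length_nil, add_zero, h1]
      exact hdeg) (by
      rw [List.sum_nil, add_zero, h2]
      exact hsum)
  rw [List.map_nil, List.append_nil] at h3
  exact h3 Z L rfl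

end main

end Pool.Agent.Run7.h142.CE
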