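import Pool.Agent.Run7.h142.CE.Defs

/-!
# The coniveau filtration and the generalized Tate conjecture over finite fields: definitions
(helper142)
-/

set_option autoImplicit false

open CategoryTheory AlgebraicGeometry

universe u v w w'

namespace Pool.Agent.Run7.h142.CE

open Pool.Agent.H914 Pool.Agent.W534 VarClass Obj WeilCohomology

/-- The subspace `N ^ ν H(Y)` of the cohomology, spanned by the images `f_* y` of the classes `y` on
varieties `Y'` of dimension at most `dim Y - ν` under the Gysin homomorphisms of all morphisms `f` from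
`Y'` to `Y` (the coniveau filtration). -/
noncomputable def coniveau {k : Type u} [Field k] {𝒱 : VarClass k} {ops : CycleOps 𝒱}
    (W : WeilCohomology.{u, v} ops) (Y : 𝒱.Obj) (ν : ℕ) : Submodule W.K (W.H Y) :=
  Submodule.span W.K {x | ∃ (Y' : 𝒱.Obj) (f : Y' ⟶ Y) (y : W.H Y'), Y'.dim + ν ≤ Y.dim ∧
    W.push f y = x}

/-- The classes of the cycles of codimension `j` lie in `N ^ j`. (The class of a subvariety is the
image of a multiple of `1` under the Gysin homomorphism of an alteration.) -/
def CyclesHaveConiveau {k : Type u} [Field k] {𝒱 : VarClass k} {ops : CycleOps 𝒱}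
    (W : WeilCohomology.{u, v} ops) : Prop :=
  ∀ (Y : 𝒱.Obj) (j : ℕ) (z : Y.Cycles), Y.IsCyc j z → W.cl Y z ∈ coniveau W Y j

/-- Each element `x` of `G` with `(f s - α) ^ b x = 0`, for some `s > 0` and some `α` such that
`α / c s` is an algebraic integer, belongs to `N`. -/
def ContainsIntegral {F M : Type*} [Field F] [AddCommGroup M] [Module F M] (N G : Submodule F M)
    (f : ℕ → M → M) (c : ℕ → F) : Prop :=
  ∀ s, 0 < s → ∀ (α : F) (b : ℕ), IsIntegral ℤ (α / c s) →
    ∀ x ∈ G, (fun y => f s y - α • y)^[b] x = 0 → x ∈ N

/-- The generalized Tate conjecture for the classes of degree `i` and coniveau `ν` on `Y` (over an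
algebraically closed field of coefficients): if `x` in `H ^ i (Y)` is a generalized eigenvector of the
Frobenius endomorphism over a finite field, with `q` elements, and the eigenvalue is `q ^ ν` times an
algebraic integer, then `x` belongs to `N ^ ν H(Y)`. The classes `x` of this kind span the largest
subspace `V` of `H ^ i (Y)` which is stable under the Frobenius endomorphisms such that `V(ν)` is
effective. -/
def GTC {k : Type u} [Field k] {𝒱 : VarClass k} {ops : CycleOps 𝒱}
    {W : WeilCohomology.{u, v} ops} {p : ℕ} (Φ : FrobSystem W p) (Y : 𝒱.Obj) (i ν : ℕ) : Prop :=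
  ContainsIntegral (coniveau W Y ν) (W.gr Y i) (fun s => W.map (W534.iter (Φ.Fr Y) s))
    (fun s => (p : W.K) ^ (Φ.e Y * s * ν))

/-- The generalized Tate conjecture holds, for all degrees `i` and all `ν`, for all varieties which are
dominated by products of the varieties `C j` and `X i`. -/
def GTCForDominated {k : Type u} [Field k] {𝒱 : VarClass k} {ops : CycleOps 𝒱}
    {W : WeilCohomology.{u, v} ops} {p : ℕ} (Φ : FrobSystem W p) {J : Type w} (C : J → 𝒱.Obj)
    {I : Type w'} (X : I → 𝒱.Obj) : Prop :=
  ∀ Y, IsDominatedBy W C X Y → ∀ i ν, GTC Φ Y i ν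

/-- The generalized Tate conjecture holds in the degree `2 m` for `ν = m` for the products of one of
the varieties `X i` and of `m ≤ D i` of the varieties `C j`, and for the products of four of the
varieties `C j` and `m = 2`. -/
def GTCForSmall {k : Type u} [Field k] {𝒱 : VarClass k} {ops : CycleOps 𝒱}
    {W : WeilCohomology.{u, v} ops} {p : ℕ} (Φ : FrobSystem W p) {J : Type w} (C : J → 𝒱.Obj)
    {I : Type w'} (X : I → 𝒱.Obj) (D : I → ℕ) : Prop :=
  ForSmall C X D fun Z m => GTC Φ Z (2 * m) m

end Pool.Agent.Run7.h142.CE
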