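import Pool.Agent.Run7.h142.CE.Num

/-!
# Slope functions: combinatorics (helper142)
-/

set_option autoImplicit false
set_option linter.unusedSectionVars false

namespace Pool.Agent.Run7.h142.CE

open Polynomial

variable {p : ℕ} [Fact p.Prime] {K : Type} [Field K] {c : K →+* K} {Λ : AddSubgroup ℝ}
  {d d₁ d₂ : ℕ} {f g : (K →+* PadicAlgCl p) → ℝ}

/-- odd functions of slope functions are slope functions -/
theorem sf_map (hf : IsSlopeFunction p c Λ d₁ f) (hg : IsSlopeFunction p c Λ d₂ g)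
    (F : ℝ → ℝ → ℝ) (hodd : ∀ x y, F (-x) (-y) = - F x y)
    (hmem : ∀ x ∈ Λ, ∀ y ∈ Λ, F x y ∈ Λ)
    (hb : ∀ x y : ℝ, |x| ≤ d₁ / 2 → |y| ≤ d₂ / 2 → |F x y| ≤ d / 2) :
    IsSlopeFunction p c Λ d fun τ => F (f τ) (g τ) := by
  classical
  obtain ⟨t, ht⟩ := hf.finite
  obtain ⟨t', ht'⟩ := hg.finite
  refine ⟨fun τ => hmem _ (hf.mem τ) _ (hg.mem τ), fun τ => hb _ _ (hf.bound τ) (hg.bound τ),
    fun τ => ?_, fun γ τ => ?_, t ∪ t', fun τ τ' h => ?_⟩
  · rw [hf.conj, hg.conj, hodd]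
  · rw [hf.galois, hg.galois]
  · rw [ht τ τ' fun a ha => h a (Finset.mem_union_left _ ha),
      ht' τ τ' fun a ha => h a (Finset.mem_union_right _ ha)]

theorem sf_zero : IsSlopeFunction p c Λ d (0 : (K →+* PadicAlgCl p) → ℝ) := by
  refine ⟨fun _ => Λ.zero_mem, fun _ => ?_, fun _ => ?_, fun _ _ => rfl, ∅, fun _ _ _ => rfl⟩
  · rw [Pi.zero_apply, abs_zero]
    positivity
  · rw [Pi.zero_apply, Pi.zero_apply, neg_zero]

theorem sf_neg (hf : IsSlopeFunction p c Λ d f) : IsSlopeFunction p c Λ d (-f) :=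
  sf_map hf hf (fun x _ => -x) (fun _ _ => rfl) (fun _ hx _ _ => Λ.neg_mem hx)
    (fun x _ hx _ => by rw [abs_neg]; exact hx)

/-- truncation -/
noncomputable def cl (x : ℝ) : ℝ := max (-(1 / 2)) (min (1 / 2) x)

theorem cl_cases (x : ℝ) : (x < -(1 / 2) ∧ cl x = -(1 / 2)) ∨ (1 / 2 < x ∧ cl x = 1 / 2) ∨
    (-(1 / 2) ≤ x ∧ x ≤ 1 / 2 ∧ cl x = x) := by
  unfold cl
  rcases lt_or_ge x (-(1 / 2)) with h | h
  · left
    refine ⟨h, ?_⟩
    rw [min_eq_right (by linarith), max_eq_left h.le]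
  · rcases lt_or_ge (1 / 2) x with h' | h'
    · right; left
      refine ⟨h', ?_⟩
      rw [min_eq_left h'.le, max_eq_right (by norm_num)]
    · right; right
      refine ⟨h, h', ?_⟩
      rw [min_eq_right h', max_eq_right h]

theorem cl_neg (x : ℝ) : cl (-x) = - cl x := by
  rcases cl_cases x with ⟨h1, h2⟩ | ⟨h1, h2⟩ | ⟨h1, h2, h3⟩ <;>
  rcases cl_cases (-x) with ⟨g1, g2⟩ | ⟨g1, g2⟩ | ⟨g1, g2, g3⟩ <;>
  linarith

theorem cl_mem (hΛ : (1 / 2 : ℝ) ∈ Λ) {x : ℝ} (hx : x ∈ Λ) : cl x ∈ Λ := by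
  rcases cl_cases x with ⟨h1, h2⟩ | ⟨h1, h2⟩ | ⟨h1, h2, h3⟩
  · rw [h2]; exact Λ.neg_mem hΛ
  · rw [h2]; exact hΛ
  · rw [h3]; exact hx

/-- **Splitting.** -/
theorem exists_pieces (hΛ : (1 / 2 : ℝ) ∈ Λ) (hf : IsSlopeFunction p c Λ d f) :
    ∃ L : List ((K →+* PadicAlgCl p) → ℝ), L.length = d ∧
      (∀ a ∈ L, IsSlopeFunction p c Λ 1 a) ∧ L.sum = f := by
  induction d generalizing f with
  | zero =>
    refine ⟨[], rfl, fun a ha => absurd ha List.not_mem_nil, ?_⟩
    rw [List.sum_nil]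
    funext τ
    have := hf.bound τ
    rw [Nat.cast_zero, zero_div] at this
    exact (abs_eq_zero.1 (le_antisymm this (abs_nonneg _))).symm
  | succ d ih =>
    have h1 : IsSlopeFunction p c Λ 1 fun τ => cl (f τ) :=
      sf_map hf hf (fun x _ => cl x) (fun x _ => cl_neg x) (fun x hx _ _ => cl_mem hΛ hx)
        (fun x _ _ _ => by
          rw [Nat.cast_one, abs_le]
          rcases cl_cases x with ⟨h1, h2⟩ | ⟨h1, h2⟩ | ⟨h1, h2, h3⟩ <;>
            constructor <;> linarith)
    have h2 : IsSlopeFunction p c Λ d fun τ => f τ - cl (f τ) :=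
      sf_map hf hf (fun x _ => x - cl x) (fun x _ => by
          change -x - cl (-x) = -(x - cl x)
          rw [cl_neg]; ring)
        (fun x hx _ _ => Λ.sub_mem hx (cl_mem hΛ hx))
        (fun x _ hx _ => by
          push_cast at hx
          rw [abs_le] at hx ⊢
          have hd : (0 : ℝ) ≤ d := Nat.cast_nonneg d
          rcases cl_cases x with ⟨h1, h2⟩ | ⟨h1, h2⟩ | ⟨h1, h2, h3⟩ <;>
            constructor <;> linarith [hx.1, hx.2])
    obtain ⟨L, h3, h4, h5⟩ := ih h2
    refine ⟨(fun τ => cl (f τ)) :: L, by rw [List.length_cons, h3], fun a ha => ?_, ?_⟩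
    · rcases List.mem_cons.1 ha with rfl | ha
      · exact h1
      · exact h4 a ha
    · rw [List.sum_cons, h5]
      funext τ
      change cl (f τ) + (f τ - cl (f τ)) = f τ
      ring

section reps

variable [CharZero K] [Algebra.IsAlgebraic ℚ K]

theorem exists_reps (p : ℕ) [Fact p.Prime] (t : Finset K) :
    ∃ T : Finset (K →+* PadicAlgCl p), ∀ τ : K →+* PadicAlgCl p, ∃ τ₀ ∈ T,
      ∀ a ∈ t, τ a = τ₀ a := by
  classical
  let G : (K →+* PadicAlgCl p) → (t → PadicAlgCl p) := fun τ a => τ a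
  have hfin : (Set.range G).Finite := by
    refine Set.Finite.subset (Set.Finite.pi' (t := fun a : t =>
      ((minpoly ℚ (a : K)).rootSet (PadicAlgCl p))) fun a => Polynomial.rootSet_finite _ _) ?_
    rintro _ ⟨τ, rfl⟩ a
    rw [Polynomial.mem_rootSet]
    refine ⟨minpoly.ne_zero (Algebra.IsAlgebraic.isAlgebraic (a : K)).isIntegral, ?_⟩
    change aeval (τ.toRatAlgHom (a : K)) (minpoly ℚ (a : K)) = 0
    rw [aeval_algHom_apply, minpoly.aeval, map_zero]
  have hex : ∀ v : hfin.toFinset, ∃ τ, G τ = v := fun v => by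
    have h1 := hfin.mem_toFinset.1 v.2
    exact h1
  choose r hr using hex
  refine ⟨Finset.univ.image r, fun τ => ?_⟩
  let v : hfin.toFinset := ⟨G τ, hfin.mem_toFinset.2 ⟨τ, rfl⟩⟩
  refine ⟨r v, Finset.mem_image_of_mem r (Finset.mem_univ v), fun a ha => ?_⟩
  have h1 := congrFun (hr v) ⟨a, ha⟩
  exact h1.symm

theorem exists_reps_list (L : List ((K →+* PadicAlgCl p) → ℝ))
    (hL : ∀ f ∈ L, IsSlopeFunction p c Λ d f) :
    ∃ T : Finset (K →+* PadicAlgCl p), ∀ τ, ∃ τ₀ ∈ T, ∀ f ∈ L, f τ = f τ₀ := by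
  classical
  have h : ∃ t : Finset K, ∀ f ∈ L, ∀ τ τ' : K →+* PadicAlgCl p, (∀ a ∈ t, τ a = τ' a) →
      f τ = f τ' := by
    induction L with
    | nil => exact ⟨∅, fun f hf => absurd hf List.not_mem_nil⟩
    | cons f L ih =>
      obtain ⟨t, ht⟩ := ih fun g hg => hL g (List.mem_cons_of_mem _ hg)
      obtain ⟨t', ht'⟩ := (hL f List.mem_cons_self).finite
      refine ⟨t ∪ t', fun g hg τ τ' h => ?_⟩
      rcases List.mem_cons.1 hg with rfl | hg
      · exact ht' τ τ' fun a ha => h a (Finset.mem_union_right _ ha)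
      · exact ht g hg τ τ' fun a ha => h a (Finset.mem_union_left _ ha)
  obtain ⟨t, ht⟩ := h
  obtain ⟨T, hT⟩ := exists_reps p t
  refine ⟨T, fun τ => ?_⟩
  obtain ⟨τ₀, h1, h2⟩ := hT τ
  exact ⟨τ₀, h1, fun f hf => ht f hf τ τ₀ h2⟩

end reps

theorem list_zero (l : List ℝ) (h : ∀ x ∈ l, 0 ≤ x) (h0 : l.sum = 0) : ∀ x ∈ l, x = 0 := by
  induction l with
  | nil => exact fun x hx => absurd hx List.not_mem_nil
  | cons a l ih =>
    rw [List.sum_cons] at h0
    have h1 := h a List.mem_cons_self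
    have h2 : 0 ≤ l.sum := List.sum_nonneg fun x hx => h x (List.mem_cons_of_mem _ hx)
    intro x hx
    rcases List.mem_cons.1 hx with rfl | hx
    · linarith
    · exact ih (fun x hx => h x (List.mem_cons_of_mem _ hx)) (by linarith) x hx

theorem list_pos (l : List ℝ) (h0 : l.sum = 0) (hx : ∃ x ∈ l, x ≠ 0) : ∃ x ∈ l, 0 < x := by
  by_contra hno
  push Not at hno
  obtain ⟨x, hx, hx0⟩ := hx
  have h1 : (l.map fun x => -x).sum = 0 := by
    have h2 : (l.map fun x => -x).sum = -l.sum := by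
      clear h0 hno hx hx0
      induction l with
      | nil => simp
      | cons a l ih => rw [List.map_cons, List.sum_cons, List.sum_cons, ih]; ring
    rw [h2, h0, neg_zero]
  have h2 := list_zero (l.map fun x => -x) (fun y hy => by
    obtain ⟨z, hz, rfl⟩ := List.mem_map.1 hy
    have := hno z hz
    linarith) h1 (-x) (List.mem_map_of_mem hx)
  exact hx0 (neg_eq_zero.1 h2)

theorem list_neg (l : List ℝ) (h0 : l.sum = 0) (hx : ∃ x ∈ l, x ≠ 0) : ∃ x ∈ l, x < 0 := by
  obtain ⟨x, hx, hx0⟩ := hx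
  have h1 : (l.map fun x => -x).sum = 0 := by
    have h2 : (l.map fun x => -x).sum = -l.sum := by
      clear h0 hx hx0
      induction l with
      | nil => simp
      | cons a l ih => rw [List.map_cons, List.sum_cons, List.sum_cons, ih]; ring
    rw [h2, h0, neg_zero]
  obtain ⟨y, hy, hy0⟩ := list_pos _ h1 ⟨-x, List.mem_map_of_mem hx, neg_ne_zero.2 hx0⟩
  obtain ⟨z, hz, rfl⟩ := List.mem_map.1 hy
  exact ⟨z, hz, by linarith⟩

theorem sum_at {T : Type*} (L : List (T → ℝ)) (τ : T) :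
    L.sum τ = (L.map fun f => f τ).sum := by
  induction L with
  | nil => rfl
  | cons f L ih => rw [List.sum_cons, Pi.add_apply, ih, List.map_cons, List.sum_cons]

/-- the first exchanged value -/
noncomputable def ex1 (x y : ℝ) : ℝ := if x * y < 0 then x + y else x

/-- the second exchanged value -/
noncomputable def ex2 (x y : ℝ) : ℝ := if x * y < 0 then 0 else y

theorem ex_add (x y : ℝ) : x + y = ex1 x y + ex2 x y := by
  unfold ex1 ex2
  split_ifs <;> ring

theorem ex1_neg (x y : ℝ) : ex1 (-x) (-y) = - ex1 x y := by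
  unfold ex1
  rw [neg_mul_neg]
  split_ifs <;> ring

theorem ex2_neg (x y : ℝ) : ex2 (-x) (-y) = - ex2 x y := by
  unfold ex2
  rw [neg_mul_neg]
  split_ifs <;> ring

theorem ex1_abs {x y r : ℝ} (hx : |x| ≤ r) (hy : |y| ≤ r) : |ex1 x y| ≤ r := by
  unfold ex1
  split_ifs with h
  · rw [abs_le] at hx hy ⊢
    rcases mul_neg_iff.1 h with ⟨h1, h2⟩ | ⟨h1, h2⟩ <;> constructor <;> linarith [hx.1, hx.2, hy.1, hy.2]
  · exact hx

theorem ex2_abs {x y r : ℝ} (hx : |x| ≤ r) (hy : |y| ≤ r) : |ex2 x y| ≤ r := by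
  unfold ex2
  split_ifs with h
  · rw [abs_zero]
    exact (abs_nonneg x).trans hx
  · exact hy

open Classical in
theorem ex_count (x y : ℝ) :
    ((if ex1 x y ≠ 0 then 1 else 0) + (if ex2 x y ≠ 0 then 1 else 0) : ℕ) ≤
      (if x ≠ 0 then 1 else 0) + (if y ≠ 0 then 1 else 0) := by
  unfold ex1 ex2
  by_cases h : x * y < 0
  · have hx : x ≠ 0 := by rintro rfl; simp at h
    have hy : y ≠ 0 := by rintro rfl; simp at h
    rw [if_pos h, if_pos h, if_pos hx, if_pos hy]
    split_ifs <;> simp_all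
  · rw [if_neg h, if_neg h]

open Classical in
theorem ex_count_lt {x y : ℝ} (h : x * y < 0) :
    ((if ex1 x y ≠ 0 then 1 else 0) + (if ex2 x y ≠ 0 then 1 else 0) : ℕ) <
      (if x ≠ 0 then 1 else 0) + (if y ≠ 0 then 1 else 0) := by
  unfold ex1 ex2
  have hx : x ≠ 0 := by rintro rfl; simp at h
  have hy : y ≠ 0 := by rintro rfl; simp at h
  rw [if_pos h, if_pos h, if_pos hx, if_pos hy]
  split_ifs <;> simp_all

section main

variable [CharZero K] [Algebra.IsAlgebraic ℚ K]

open Classical in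
/-- the number of nonzero values -/
noncomputable def cnt {T : Type*} (S : Finset T) (f : T → ℝ) : ℕ :=
  (S.filter fun τ => f τ ≠ 0).card

open Classical in
theorem cnt_lt {T : Type*} {S : Finset T} {f g : T → ℝ} {τ : T} (hτ : τ ∈ S)
    (h : f τ * g τ < 0) : cnt S (fun τ => ex1 (f τ) (g τ)) + cnt S (fun τ => ex2 (f τ) (g τ)) <
      cnt S f + cnt S g := by
  unfold cnt
  rw [Finset.card_filter, Finset.card_filter, Finset.card_filter, Finset.card_filter,
    ← Finset.sum_add_distrib, ← Finset.sum_add_distrib]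
  exact Finset.sum_lt_sum (fun i _ => ex_count _ _) ⟨τ, hτ, ex_count_lt h⟩

/-- **The induction over lists of slope functions with sum zero.** -/
theorem even_induction {P : List ((K →+* PadicAlgCl p) → ℝ) → Prop}
    (hperm : ∀ L L', L.Perm L' → P L → P L') (hbase : ∀ m, P (List.replicate (2 * m) 0))
    (hex : ∀ f g u u' L, IsSlopeFunction p c Λ 1 f → IsSlopeFunction p c Λ 1 g →
      IsSlopeFunction p c Λ 1 u → IsSlopeFunction p c Λ 1 u' → f + g = u + u' →
      P (u :: u' :: L) → P (f :: g :: L))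
    (L : List ((K →+* PadicAlgCl p) → ℝ)) (hL : ∀ f ∈ L, IsSlopeFunction p c Λ 1 f)
    (heven : Even L.length) (hsum : L.sum = 0) : P L := by
  classical
  obtain ⟨S, hS⟩ := exists_reps_list L hL
  have key : ∀ (n : ℕ) (L : List ((K →+* PadicAlgCl p) → ℝ)),
      (∀ f ∈ L, IsSlopeFunction p c Λ 1 f) → Even L.length → L.sum = 0 →
      (∀ τ, ∃ τ₀ ∈ S, ∀ f ∈ L, f τ = f τ₀) → (L.map (cnt S)).sum ≤ n → P L := by
    intro n
    induction n using Nat.strong_induction_on with
    | _ n ih =>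
    intro L hL heven hsum hS hn
    by_cases hz : ∀ f ∈ L, ∀ τ ∈ S, f τ = 0
    · have h1 : ∀ f ∈ L, f = 0 := by
        intro f hf
        funext τ
        obtain ⟨τ₀, h1, h2⟩ := hS τ
        rw [h2 f hf, hz f hf τ₀ h1, Pi.zero_apply]
      obtain ⟨m, hm⟩ := heven
      have h2 := List.eq_replicate_of_mem h1
      rw [h2, hm, ← two_mul]
      exact hbase m
    · push Not at hz
      obtain ⟨f₀, hf₀, τ, hτ, hne⟩ := hz
      have h1 : (L.map fun f => f τ).sum = 0 := by
        rw [← sum_at, hsum, Pi.zero_apply]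
      have h2 : ∃ x ∈ L.map fun f => f τ, x ≠ 0 :=
        ⟨f₀ τ, List.mem_map_of_mem (f := fun f : (K →+* PadicAlgCl p) → ℝ => f τ) hf₀, hne⟩
      obtain ⟨x, hx, hx0⟩ := list_pos _ h1 h2
      obtain ⟨y, hy, hy0⟩ := list_neg _ h1 h2
      obtain ⟨f, hf, rfl⟩ := List.mem_map.1 hx
      obtain ⟨g, hg, rfl⟩ := List.mem_map.1 hy
      have hfg : g ≠ f := by
        rintro rfl
        linarith
      have h3 : L.Perm (f :: g :: (L.erase f).erase g) :=
        (List.perm_cons_erase hf).trans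
          ((List.perm_cons_erase ((List.mem_erase_of_ne hfg).2 hg)).cons f)
      set L' := (L.erase f).erase g with hL'
      have hmem : ∀ h ∈ L', h ∈ L := fun h hh =>
        h3.mem_iff.2 (List.mem_cons_of_mem _ (List.mem_cons_of_mem _ hh))
      have hprod : f τ * g τ < 0 := mul_neg_of_pos_of_neg hx0 hy0
      let u : (K →+* PadicAlgCl p) → ℝ := fun τ => ex1 (f τ) (g τ)
      let u' : (K →+* PadicAlgCl p) → ℝ := fun τ => ex2 (f τ) (g τ)
      have hu : IsSlopeFunction p c Λ 1 u := sf_map (hL f hf) (hL g hg) ex1 ex1_neg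
        (fun x hx y hy => by
          unfold ex1
          split_ifs
          · exact Λ.add_mem hx hy
          · exact hx) fun x y hx hy => ex1_abs hx hy
      have hu' : IsSlopeFunction p c Λ 1 u' := sf_map (hL f hf) (hL g hg) ex2 ex2_neg
        (fun x hx y hy => by
          unfold ex2
          split_ifs
          · exact Λ.zero_mem
          · exact hy) fun x y hx hy => ex2_abs hx hy
      have hadd : f + g = u + u' := funext fun τ => ex_add (f τ) (g τ)
      refine hperm _ _ h3.symm (hex f g u u' L' (hL f hf) (hL g hg) hu hu' hadd ?_)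
      have h4 : (L.map (cnt S)).sum = cnt S f + (cnt S g + (L'.map (cnt S)).sum) := by
        rw [(h3.map (cnt S)).sum_eq, List.map_cons, List.map_cons, List.sum_cons, List.sum_cons]
      have h5 : ((u :: u' :: L').map (cnt S)).sum < (L.map (cnt S)).sum := by
        rw [h4, List.map_cons, List.map_cons, List.sum_cons, List.sum_cons]
        have := cnt_lt hτ hprod
        change cnt S u + cnt S u' < _ at this
        omega
      refine ih _ (lt_of_lt_of_le h5 hn) (u :: u' :: L') (fun h hh => ?_) ?_ ?_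
        (fun τ => ?_) le_rfl
      · rcases List.mem_cons.1 hh with rfl | hh
        · exact hu
        · rcases List.mem_cons.1 hh with rfl | hh
          · exact hu'
          · exact hL h (hmem h hh)
      · have h6 := h3.length_eq
        rw [List.length_cons, List.length_cons] at h6 ⊢
        rwa [← h6]
      · have h6 := h3.sum_eq
        rw [hsum, List.sum_cons, List.sum_cons, ← add_assoc, hadd] at h6
        rw [List.sum_cons, List.sum_cons, ← add_assoc, ← h6]
      · obtain ⟨τ₀, h6, h7⟩ := hS τ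
        refine ⟨τ₀, h6, fun h hh => ?_⟩
        rcases List.mem_cons.1 hh with rfl | hh
        · change ex1 (f τ) (g τ) = ex1 (f τ₀) (g τ₀)
          rw [h7 f hf, h7 g hg]
        · rcases List.mem_cons.1 hh with rfl | hh
          · change ex2 (f τ) (g τ) = ex2 (f τ₀) (g τ₀)
            rw [h7 f hf, h7 g hg]
          · exact h7 h (hmem h hh)
  exact key _ L hL heven hsum hS le_rfl

end main

end Pool.Agent.Run7.h142.CE
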