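import Pool.Agent.Run7.h142.CE.Gysin

/-!
# The generalized Tate conjecture for products (helper142)
-/

set_option autoImplicit false
set_option linter.unusedSectionVars false

open CategoryTheory AlgebraicGeometry
open scoped TensorProduct

universe u v w w'

namespace Pool.Agent.Run7.h142.CE

open Pool.Agent.H914 Pool.Agent.H914.VarClass Pool.Agent.H914.VarClass.Obj
  Pool.Agent.H914.WeilCohomology Pool.Agent.H281R3.HT Pool.Agent.W534
  Pool.Agent.W458.RK Pool.Agent.W458.MF Pool.Agent.TH132.A Pool.Agent.W536.RR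
  Pool.Agent.TH121.KT Pool.Agent.Y138.TU
open Pool.Agent.Run7.h142.GT (TateTo iterate_eq)

variable {k : Type u} [Field k] {𝒱 : VarClass k} {ops : CycleOps 𝒱}
  {W : WeilCohomology.{u, v} ops} {p : ℕ} [Fact p.Prime] {Φ : FrobSystem W p}
  {K : Type} [Field K] {σ : K →+* W.K} {c : K →+* K}
  {Λ : AddSubgroup ℝ} {J : Type w} {C : J → 𝒱.Obj} {I : Type w'} {X : I → 𝒱.Obj} {D : I → ℕ}
  {Y Z : 𝒱.Obj}

/-- the generalized Tate conjecture and generalized eigenspaces -/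
theorem gtc_iff {i ν : ℕ} : GTC Φ Y i ν ↔ ∀ t, 0 < t → ∀ α : W.K,
    IsIntegral ℤ (α / (p : W.K) ^ (Φ.e Y * t * ν)) → ∀ x ∈ W.gr Y i,
      x ∈ (frob Φ Y t).maxGenEigenspace α → x ∈ coniveau W Y ν := by
  constructor
  · intro h t ht α hα x hx hxm
    rw [Module.End.mem_maxGenEigenspace] at hxm
    obtain ⟨b, hb⟩ := hxm
    exact h t ht α b hα x hx ((iterate_eq (frob Φ Y t) _ b x).trans hb)
  · intro h t ht α b hα x hx hxb
    refine h t ht α hα x hx ?_
    rw [Module.End.mem_maxGenEigenspace]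
    exact ⟨b, (iterate_eq (frob Φ Y t) _ b x).symm.trans hxb⟩

/-- the Tate conjecture is a part of the generalized Tate conjecture -/
theorem tate_of_gtc {m : ℕ} (h : GTC Φ Y (2 * m) m) (b : ℕ) : TateTo Φ Y b m := by
  refine tateTo_iff_hasTate.2 fun t ht x hx hxb => ?_
  refine alg_of_con (h t ht _ b ?_ x hx hxb) hx
  have hp : (p : W.K) ≠ 0 := Nat.cast_ne_zero.2 (Fact.out : p.Prime).ne_zero
  change IsIntegral ℤ ((p : W.K) ^ (Φ.e Y * t * m) / (p : W.K) ^ (Φ.e Y * t * m))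
  rw [div_self (pow_ne_zero _ hp)]
  exact isIntegral_one

/-- **Domination.** -/
theorem con_dominated (hcyc : CyclesHaveConiveau W) (f : Z ⟶ Y) {z : W.H Z}
    (hz : z ∈ algSpan W Z) (hf : ∀ y, W.push f (z * W.map f y) = y) {i ν t : ℕ} (ht : 0 < t)
    {α : W.K} (hα : IsIntegral ℤ (α / (p : W.K) ^ (Φ.e Y * t * ν))) {x : W.H Y}
    (hx : x ∈ W.gr Y i) (hxm : x ∈ (frob Φ Y t).maxGenEigenspace α)
    (h : ∀ s, 0 < s → ∀ β : W.K, IsIntegral ℤ (β / (p : W.K) ^ (Φ.e Z * s * ν)) → ∀ y : W.H Z,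
      y ∈ (frob Φ Z s).maxGenEigenspace β → y ∈ coniveau W Z ν) : x ∈ coniveau W Y ν := by
  obtain ⟨a, ha, hcomm⟩ := exists_comm Φ f
  obtain ⟨s', hs', hss, h1⟩ := hcomm (t * Φ.e Y) (Nat.mul_pos ht (Φ.e_pos _))
  have h2 : s' = t * (a * Φ.e Z) := by
    refine Nat.eq_of_mul_eq_mul_right (Φ.e_pos Y) ?_
    rw [hss]
    ring
  have h3 : x ∈ (frob Φ Y s').maxGenEigenspace (α ^ (a * Φ.e Z)) := by
    have h4 := gen_pow_of_gen hxm (a * Φ.e Z)
    rwa [← frob_mul_eq, ← h2] at h4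
  have h6 := gen_map (T := frob Φ Y s') (T' := frob Φ Z (a * (t * Φ.e Y)))
    (θ := (W.map f).toLinearMap) (c := 1) (fun y => by
      rw [one_smul]
      exact h1 y) h3
  rw [one_mul] at h6
  have h8 : W.map f x ∈ coniveau W Z ν := by
    refine h _ (Nat.mul_pos ha (Nat.mul_pos ht (Φ.e_pos _))) _ ?_ _ h6
    have h7 : α ^ (a * Φ.e Z) / (p : W.K) ^ (Φ.e Z * (a * (t * Φ.e Y)) * ν) =
        (α / (p : W.K) ^ (Φ.e Y * t * ν)) ^ (a * Φ.e Z) := by
      rw [div_pow, ← pow_mul]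
      congr 2
      ring
    rw [h7]
    exact hα.pow _
  have h9 : ∀ z ∈ algSpan W Z, W.push f (z * W.map f x) ∈
      (coniveau W Y ν ⊓ W.gr Y i) ⊔ ⨆ (l : ℕ) (_ : l ≠ i), W.gr Y l := by
    intro z hz
    refine algSpan_induction (p := fun z => W.push f (z * W.map f x) ∈
      (coniveau W Y ν ⊓ W.gr Y i) ⊔ ⨆ (l : ℕ) (_ : l ≠ i), W.gr Y l) ?_ ?_ ?_ ?_ hz
    · rw [zero_mul, map_zero]
      exact Submodule.zero_mem _
    · intro a b ha hb
      rw [add_mul, map_add]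
      exact Submodule.add_mem _ ha hb
    · intro r a ha
      rw [smul_mul_assoc, map_smul]
      exact Submodule.smul_mem _ _ ha
    · intro j z hz
      have h10 := W.push_mem f (W.mul_mem (W.cl_mem hz) (W.map_mem f hx))
      by_cases h11 : ((2 * j + i : ℕ) : ℤ) + 2 * ((Y.dim : ℤ) - Z.dim) = i
      · refine Submodule.mem_sup_left ⟨?_, ?_⟩
        · refine push_con f (i := j + ν) ?_ (cyc_mul_con hcyc hz h8)
          push_cast at h11
          have : (Z.dim : ℤ) = Y.dim + j := by linarith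
          omega
        · rw [h11, grZ_natCast] at h10
          exact h10
      · exact Submodule.mem_sup_right (other_mem h10 h11)
  have h10 := h9 z hz
  rw [hf] at h10
  exact (comp_mem inf_le_right hx h10).1

section main

variable [CharZero K] [Algebra.IsAlgebraic ℚ K]

/-- **The generalized Tate conjecture for the products.** -/
theorem con_product (hcyc : CyclesHaveConiveau W) (hΛ : (1 / 2 : ℝ) ∈ Λ)
    (hC : IsComplete Φ σ c Λ C) (hX : ∀ i, IsGenerated Φ σ c Λ (D i) (X i))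
    (hT : ForSmall C X D fun Z m => ∀ b, HasTate Φ (fun Z => algSpan W Z) Z b m)
    (hZ : IsProduct W (Sum.elim C X) Z) {ν t : ℕ} (ht : 0 < t) {α : W.K}
    (hα : IsIntegral ℤ (α / (p : W.K) ^ (Φ.e Z * t * ν))) {y : W.H Z}
    (hy : y ∈ (frob Φ Z t).maxGenEigenspace α) : y ∈ coniveau W Z ν := by
  classical
  obtain ⟨t₀, ht₀, h0⟩ := span_gd (span_wds (generated_all hC hX) hZ y)
  have h1 := h0 t ht
  set T := t₀ * t with hTdef
  have hTs : T = t * t₀ := mul_comm t₀ t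
  have hTpos : 0 < T := Nat.mul_pos ht₀ ht
  have hαT : IsIntegral ℤ (α ^ t₀ / (p : W.K) ^ (Φ.e Z * T * ν)) := by
    have h7 : α ^ t₀ / (p : W.K) ^ (Φ.e Z * T * ν) =
        (α / (p : W.K) ^ (Φ.e Z * t * ν)) ^ t₀ := by
      rw [div_pow, ← pow_mul, hTs]
      congr 2
      ring
    rw [h7]
    exact hα.pow _
  have h2 : y ∈ (frob Φ Z T).maxGenEigenspace (α ^ t₀) := by
    have h3 := gen_pow_of_gen hy t₀
    rwa [← frob_mul_eq, ← hTs] at h3
  have heig : ∀ v ∈ GoodWds Φ σ c Λ (degs C D) (Sum.elim C X) Z T,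
      ∃ (ω : W.K) (M j : ℕ) (L : List (Lt Φ σ (Sum.elim C X) Z)) (z : Z.Cycles),
      v ∈ (frob Φ Z T).maxGenEigenspace (ω * (card Φ Z T : W.K) ^ j) ∧ 0 < M ∧
      Z.IsCyc j z ∧ v = wval L * W.cl Z z ∧
      (∀ l ∈ L, l.d ≤ degs C D l.i ∧ IsSlopeFunction p c Λ l.d l.s) ∧
      HasSlopes p σ (Φ.e Z * T) ((L.map fun l => l.d).sum + 2 * j)
        ((L.map fun l => l.s).sum) M (ω * (card Φ Z T : W.K) ^ j) := by
    rintro v ⟨L, j, M, z, hLc, hM, hz, hL, hcyc, rfl⟩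
    obtain ⟨ω, h3, h4⟩ := word_eig L hL
    refine ⟨ω, M, j, L, z, ?_, hM, hz, rfl, hLc, ?_⟩
    · exact mul_gen h3 (eig_mem_gen hcyc)
    · have h5 := slopes_mul h4 (slopes_card (Φ := Φ) (σ := σ) (Z := Z) T j M)
      rwa [add_zero] at h5
  have h3 := mem_span_gen (T := frob Φ Z T) (fun v hv => by
    obtain ⟨ω, _, j, _, _, h, _⟩ := heig v hv
    exact ⟨ω * (card Φ Z T : W.K) ^ j, h⟩) h1 h2
  refine (Submodule.span_le (p := coniveau W Z ν)).2 ?_ h3
  rintro v ⟨hv, hvμ⟩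
  by_cases hv0 : v = 0
  · rw [hv0]
    exact Submodule.zero_mem _
  obtain ⟨ω, M, j, Lw, z, h4, hM, hz, hvL, hLc, h5⟩ := heig v hv
  have h6 : ω * (card Φ Z T : W.K) ^ j = α ^ t₀ := eq_of_mem_gen h4 hvμ hv0
  rw [h6] at h5
  have h7 : ∀ τ, (Lw.map fun l => l.s).sum τ ≤
      (((Lw.map fun l => l.d).sum + 2 * j : ℕ) : ℝ) / 2 - ν :=
    fun τ => slopes_le h5 (Nat.mul_pos (Φ.e_pos _) hTpos) hM hαT τ
  rw [hvL, ← algSpan_comm (cl_mem_algSpan (W := W) hz)]
  rcases le_or_gt ν j with hνj | hνj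
  · exact con_mul (con_anti hνj (hcyc _ _ _ hz)) _
  · obtain ⟨ν', rfl⟩ := Nat.exists_eq_add_of_le hνj.le
    refine cyc_mul_con hcyc hz ?_
    have h8 : ((Lw.map lab).map fun x => x.2.1).sum = (Lw.map fun l => l.d).sum := by
      rw [← map_labels Lw fun x => x.2.1]
      rfl
    have h9 : ((Lw.map lab).map fun x => x.2.2).sum = (Lw.map fun l => l.s).sum := by
      rw [← map_labels Lw fun x => x.2.2]
      rfl
    refine conL_words hcyc hΛ hC hT (Lw.map lab) (fun x hx => ?_) (fun τ => ?_) Z Lw rfl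
    · obtain ⟨l, hl, rfl⟩ := List.mem_map.1 hx
      obtain ⟨h10, h11⟩ := hLc l hl
      refine ⟨fun i hi => ?_, fun hi => ?_, h11⟩
      · have h12 := exists_right hi
        rw [h12] at h10
        exact h10
      · obtain ⟨j, h12⟩ := exists_left hi
        rw [h12] at h10
        exact h10
    · rw [h8, h9]
      have h10 := h7 τ
      push_cast at h10 ⊢
      linarith

/-- **The generalized Tate conjecture for the dominated varieties.** -/
theorem gtc_all (hcyc : CyclesHaveConiveau W) (hΛ : (1 / 2 : ℝ) ∈ Λ)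
    (hC : IsComplete Φ σ c Λ C) (hX : ∀ i, IsGenerated Φ σ c Λ (D i) (X i))
    (hT : StrongTateForSmall Φ C X D) : GTCForDominated Φ C X := by
  rintro Y ⟨Z, f, hZ, z, hz, hf⟩ i ν
  rw [gtc_iff]
  intro t ht α hα x hx hxm
  exact con_dominated hcyc f hz hf ht hα hx hxm fun s hs β hβ y hy =>
    con_product hcyc hΛ hC hX (forSmall_mono (fun Z m hZ b => tateTo_iff_hasTate.1 (hZ b)) hT)
      hZ hs hβ hy

theorem gtc_iff_strong (hcyc : CyclesHaveConiveau W) (hΛ : (1 / 2 : ℝ) ∈ Λ)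
    (hC : IsComplete Φ σ c Λ C) (hX : ∀ i, IsGenerated Φ σ c Λ (D i) (X i)) :
    GTCForDominated Φ C X ↔ StrongTateForSmall Φ C X D :=
  ⟨fun h => forSmall_of (W := W) fun Z hZ m b =>
      tate_of_gtc (h Z (isDominated_of_product hZ) (2 * m) m) b,
    gtc_all hcyc hΛ hC hX⟩

theorem gtc_iff_small (hcyc : CyclesHaveConiveau W) (hΛ : (1 / 2 : ℝ) ∈ Λ)
    (hC : IsComplete Φ σ c Λ C) (hX : ∀ i, IsGenerated Φ σ c Λ (D i) (X i)) :
    GTCForDominated Φ C X ↔ GTCForSmall Φ C X D :=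
  ⟨fun h => forSmall_of (W := W) fun Z hZ m => h Z (isDominated_of_product hZ) (2 * m) m,
    fun h => gtc_all hcyc hΛ hC hX (forSmall_mono (fun _ _ hZ b => tate_of_gtc hZ b) h)⟩

theorem gtc_iff_plain (hcyc : CyclesHaveConiveau W) (hΛ : (1 / 2 : ℝ) ∈ Λ)
    (hC : IsComplete Φ σ c Λ C) (hX : ∀ i, IsGenerated Φ σ c Λ (D i) (X i))
    (hsC : ∀ j, IsSemisimple Φ 1 (C j)) (hsX : ∀ i, IsSemisimple Φ (D i) (X i)) :
    GTCForDominated Φ C X ↔ TateForSmall Φ C X D := by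
  rw [gtc_iff_strong hcyc hΛ hC hX, ← tate_iff hΛ hC hX, tate_iff_one hΛ hC hX hsC hsX]

end main

end Pool.Agent.Run7.h142.CE
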