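import Pool.Agent.Run7.h142.CE.Semi
import Pool.Agent.Run7.h142.CE.ConDefs

/-!
# The coniveau filtration and the generalized Tate conjecture (helper142)

The lemmas about the coniveau filtration are adapted from the starting file `N204/GH/Coniv`.
-/

set_option autoImplicit false
set_option linter.unusedSectionVars false

open CategoryTheory AlgebraicGeometry
open scoped TensorProduct

universe u v w w'

namespace Pool.Agent.Run7.h142.CE

open Pool.Agent.H914 Pool.Agent.H914.VarClass Pool.Agent.H914.VarClass.Obj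
  Pool.Agent.H914.WeilCohomology Pool.Agent.H281R3.HT Pool.Agent.W534
  Pool.Agent.W458.RK Pool.Agent.W458.MF Pool.Agent.TH132.A Pool.Agent.W536.RR
  Pool.Agent.TH121.KT Pool.Agent.Y138.TU
open Pool.Agent.Run7.h142.GT (TateTo iterate_eq)

variable {k : Type u} [Field k] {𝒱 : VarClass k} {ops : CycleOps 𝒱}
  {W : WeilCohomology.{u, v} ops} {p : ℕ} [Fact p.Prime] {Φ : FrobSystem W p}
  {K : Type} [Field K] {σ : K →+* W.K} {c : K →+* K}
  {Λ : AddSubgroup ℝ} {J : Type w} {C : J → 𝒱.Obj} {I : Type w'} {X : I → 𝒱.Obj} {D : I → ℕ}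
  {Y Y' Z : 𝒱.Obj}

theorem push_mem_con {ν : ℕ} (f : Y' ⟶ Y) (h : Y'.dim + ν ≤ Y.dim) (y : W.H Y') :
    W.push f y ∈ coniveau W Y ν :=
  Submodule.subset_span ⟨Y', f, y, h, rfl⟩

theorem con_anti {i j : ℕ} (h : i ≤ j) : coniveau W Y j ≤ coniveau W Y i := by
  rw [coniveau, Submodule.span_le]
  rintro _ ⟨Y', f, y, h1, rfl⟩
  exact push_mem_con f (by omega) y

/-- ideals -/
theorem con_mul {ν : ℕ} {x : W.H Y} (hx : x ∈ coniveau W Y ν) (b : W.H Y) :
    x * b ∈ coniveau W Y ν := by
  induction hx using Submodule.span_induction with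
  | mem x hx =>
    obtain ⟨Y', f, y, h1, rfl⟩ := hx
    rw [← W.push_mul]
    exact push_mem_con f h1 _
  | zero => rw [zero_mul]; exact Submodule.zero_mem _
  | add x y _ _ hx hy => rw [add_mul]; exact Submodule.add_mem _ hx hy
  | smul c x _ hx => rw [smul_mul_assoc]; exact Submodule.smul_mem _ _ hx

/-- push-forward -/
theorem push_con {i j : ℕ} (g : Y ⟶ Z) (h : Y.dim + j ≤ Z.dim + i) {x : W.H Y}
    (hx : x ∈ coniveau W Y i) : W.push g x ∈ coniveau W Z j := by
  induction hx using Submodule.span_induction with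
  | mem x hx =>
    obtain ⟨Y', f, y, h1, rfl⟩ := hx
    rw [← W.push_comp]
    exact push_mem_con _ (by omega) _
  | zero => rw [map_zero]; exact Submodule.zero_mem _
  | add x y _ _ hx hy => rw [map_add]; exact Submodule.add_mem _ hx hy
  | smul c x _ hx => rw [map_smul]; exact Submodule.smul_mem _ _ hx

/-- products with cycle classes -/
theorem cyc_mul_con (hcyc : CyclesHaveConiveau W) {i j : ℕ} {z : Y.Cycles} (hz : Y.IsCyc i z)
    {x : W.H Y} (hx : x ∈ coniveau W Y j) : W.cl Y z * x ∈ coniveau W Y (i + j) := by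
  induction hx using Submodule.span_induction with
  | mem x hx =>
    obtain ⟨Y', f, y, h1, rfl⟩ := hx
    rw [algSpan_comm (cl_mem_algSpan hz), ← W.push_mul, ← W.cl_pull,
      ← algSpan_comm (cl_mem_algSpan (W := W) (ops.pull_mem f hz))]
    exact push_con f (i := i) (by omega) (con_mul (hcyc _ _ _ (ops.pull_mem f hz)) _)
  | zero => rw [mul_zero]; exact Submodule.zero_mem _
  | add x y _ _ hx hy => rw [mul_add]; exact Submodule.add_mem _ hx hy
  | smul c x _ hx => rw [mul_smul_comm]; exact Submodule.smul_mem _ _ hx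

/-- algebraic classes -/
theorem alg_con (hcyc : CyclesHaveConiveau W) {m : ℕ} {x : W.H Y} (hx : x ∈ algSpan W Y)
    (hm : x ∈ W.gr Y (2 * m)) : x ∈ coniveau W Y m := by
  have h1 := spanCycles_of_alg hx hm
  refine (Submodule.span_le (p := coniveau W Y m)).2 ?_ h1
  rintro _ ⟨q, hq, z, hz, rfl⟩
  have h2 : q = m := by exact_mod_cast hq
  subst h2
  exact hcyc _ _ _ hz

/-- components -/
theorem comp_mem {N : Submodule W.K (W.H Y)} {i : ℕ} (hN : N ≤ W.gr Y i) {x : W.H Y}
    (hx : x ∈ W.gr Y i) (h : x ∈ N ⊔ ⨆ (l : ℕ) (_ : l ≠ i), W.gr Y l) : x ∈ N := by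
  obtain ⟨a, ha, b, hb, rfl⟩ := Submodule.mem_sup.1 h
  have h1 : b ∈ W.gr Y i := by
    have := Submodule.sub_mem _ hx (hN ha)
    rwa [add_sub_cancel_left] at this
  have h2 := (W.isInternal Y).submodule_iSupIndep i
  have h3 : b = 0 := (Submodule.disjoint_def.1 h2) b h1 hb
  rw [h3, add_zero]
  exact ha

theorem other_mem {x : W.H Y} {l : ℤ} {i : ℕ} (h : x ∈ grZ (W.gr Y) l) (hl : l ≠ i) :
    x ∈ ⨆ (l : ℕ) (_ : l ≠ i), W.gr Y l := by
  rcases lt_or_ge l 0 with h0 | h0
  · rw [grZ_of_neg h0, Submodule.mem_bot] at h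
    rw [h]
    exact Submodule.zero_mem _
  · obtain ⟨n, rfl⟩ := Int.eq_ofNat_of_zero_le h0
    rw [grZ_natCast] at h
    have hn : n ≠ i := by
      rintro rfl
      exact hl rfl
    exact Submodule.mem_iSup_of_mem n (Submodule.mem_iSup_of_mem hn h)

/-- **The Tate conjecture is the generalized Tate conjecture in the middle.** -/
theorem alg_of_con {m : ℕ} {x : W.H Y} (hx : x ∈ coniveau W Y m) (hm : x ∈ W.gr Y (2 * m)) :
    x ∈ algSpan W Y := by
  have h1 : x ∈ (algSpan W Y ⊓ W.gr Y (2 * m)) ⊔ ⨆ (l : ℕ) (_ : l ≠ 2 * m), W.gr Y l := by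
    clear hm
    induction hx using Submodule.span_induction with
    | mem x hx =>
      obtain ⟨Y', f, y, h1, rfl⟩ := hx
      refine gr_induction (W.isInternal Y') (p := fun y => W.push f y ∈
        (algSpan W Y ⊓ W.gr Y (2 * m)) ⊔ ⨆ (l : ℕ) (_ : l ≠ 2 * m), W.gr Y l) ?_ ?_ y
      · intro l y hy
        have h2 := W.push_mem f hy
        by_cases h3 : (l : ℤ) + 2 * ((Y.dim : ℤ) - Y'.dim) = (2 * m : ℕ)
        · have hl : l = 0 := by
            push_cast at h3
            have : (Y'.dim : ℤ) + m ≤ Y.dim := by exact_mod_cast h1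
            omega
          subst hl
          refine Submodule.mem_sup_left ⟨?_, ?_⟩
          · rw [W.gr_zero] at hy
            obtain ⟨r, rfl⟩ := Submodule.mem_span_singleton.1 hy
            rw [map_smul]
            exact Submodule.smul_mem _ _ (algSpan_push f one_mem_algSpan)
          · rw [h3, grZ_natCast] at h2
            exact h2
        · exact Submodule.mem_sup_right (other_mem h2 h3)
      · intro a b ha hb
        rw [map_add]
        exact Submodule.add_mem _ ha hb
    | zero => exact Submodule.zero_mem _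
    | add x y _ _ hx hy => exact Submodule.add_mem _ hx hy
    | smul c x _ hx => exact Submodule.smul_mem _ _ hx
  exact (comp_mem inf_le_right hm h1).1

/-- all words with the given labels have coniveau `a` -/
def ConL (Φ : FrobSystem W p) (σ : K →+* W.K) (C : J → 𝒱.Obj) (X : I → 𝒱.Obj)
    (l : List (Option I × ℕ × ((K →+* PadicAlgCl p) → ℝ))) (a : ℕ) : Prop :=
  ∀ (Z : 𝒱.Obj) (G : List (Lt Φ σ (Sum.elim C X) Z)), G.map lab = l → wval G ∈ coniveau W Z a

theorem conL_perm {l l' : List (Option I × ℕ × ((K →+* PadicAlgCl p) → ℝ))} {a : ℕ}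
    (hl : l.Perm l') (h : ConL Φ σ C X l a) : ConL Φ σ C X l' a := by
  intro Z G h1
  obtain ⟨G', h2, h3⟩ := perm_lift hl.symm G h1
  obtain ⟨c, hc⟩ := wval_perm h2
  rw [hc]
  exact Submodule.smul_mem _ _ (h Z G' h3)

section main

variable [CharZero K] [Algebra.IsAlgebraic ℚ K]

/-- **Integrality and slopes.** -/
theorem slopes_le {F : Type*} [Field F] {σ : K →+* F} {n d M ν : ℕ}
    {s : (K →+* PadicAlgCl p) → ℝ} {ω : F} (h : HasSlopes p σ n d s M ω) (hn : 0 < n)
    (hM : 0 < M) (hint : IsIntegral ℤ (ω / (p : F) ^ (n * ν))) (τ : K →+* PadicAlgCl p) :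
    s τ ≤ d / 2 - ν := by
  obtain ⟨β, h1, h2, h3, h4⟩ := h
  have hβ := beta_ne h2
  have h5 : σ (β / (p : K) ^ (n * ν * M)) = (ω / (p : F) ^ (n * ν)) ^ M := by
    rw [map_div₀, map_pow, map_natCast, h1, div_pow, ← pow_mul]
  have h6 : IsIntegral ℤ (β / (p : K) ^ (n * ν * M)) := by
    have h7 : IsIntegral ℤ (σ (β / (p : K) ^ (n * ν * M))) := by
      rw [h5]
      exact hint.pow M
    exact (isIntegral_algHom_iff σ.toIntAlgHom σ.injective).1 h7
  have h7 : IsIntegral ℤ (τ (β / (p : K) ^ (n * ν * M))) := h6.map τ.toIntAlgHom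
  have h8 := Pool.Agent.R940.padic_integral h7
  have hp0 : (0 : ℝ) < p := by exact_mod_cast (Fact.out : p.Prime).pos
  have hpos : 0 < ‖τ β‖ := norm_pos_iff.2 ((map_ne_zero τ).2 hβ)
  rw [map_div₀, map_pow, map_natCast, norm_div, norm_pow, norm_p,
    div_le_one (pow_pos (inv_pos.2 hp0) _)] at h8
  have h9 := Real.log_le_log hpos h8
  rw [h4, Real.log_pow, Real.log_inv] at h9
  have hlp := log_p_pos p
  push_cast at h9
  have hnM : (0 : ℝ) < n * M := by
    have h10 : (0 : ℝ) < n := by exact_mod_cast hn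
    have h11 : (0 : ℝ) < M := by exact_mod_cast hM
    positivity
  have h10 : (s τ - d / 2) * ((n * M) * Real.log p) ≤ (-ν) * ((n * M) * Real.log p) := by
    linarith
  have h11 := le_of_mul_le_mul_right h10 (mul_pos hnM hlp)
  linarith

/-- cancellation of one letter -/
theorem conL_cancel (hcyc : CyclesHaveConiveau W) (hC : IsComplete Φ σ c Λ C)
    {s : (K →+* PadicAlgCl p) → ℝ} (hs : IsSlopeFunction p c Λ 1 s)
    {l : List (Option I × ℕ × ((K →+* PadicAlgCl p) → ℝ))} {a : ℕ}
    (h : ConL Φ σ C X ((none, 1, -s) :: l) (a + 1)) :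
    ConL Φ σ C X l a := by
  classical
  intro Z G h1
  obtain ⟨i, x, y, j, z, hx, hy, hz, hxy⟩ := exists_dual hC hs
  let lx : Lt Φ σ (Sum.elim C X) (Z.prod (C i)) := ⟨Sum.inl i, snd Z (C i), 1, s, x, hx⟩
  let ly : Lt Φ σ (Sum.elim C X) (Z.prod (C i)) := ⟨Sum.inl i, snd Z (C i), 1, -s, y, hy⟩
  have h2 := h (Z.prod (C i)) (ly :: G.map (Lt.pull (fst Z (C i)))) (by
    rw [List.map_cons, List.map_map, ← h1]
    rfl)
  have h2' : wval (lx :: ly :: G.map (Lt.pull (fst Z (C i)))) ∈
      coniveau W (Z.prod (C i)) (a + 1) := by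
    have hp : (lx :: ly :: G.map (Lt.pull (fst Z (C i)))).Perm
        ((ly :: G.map (Lt.pull (fst Z (C i)))) ++ [lx]) := List.perm_append_singleton _ _ |>.symm
    obtain ⟨r, hr⟩ := wval_perm hp
    rw [hr, wval_append]
    exact Submodule.smul_mem _ _ (con_mul h2 _)
  have h3 : wval (lx :: ly :: G.map (Lt.pull (fst Z (C i)))) =
      W.map (fst Z (C i)) (wval G) * W.map (snd Z (C i)) (x * y) := by
    rw [wval_cons, wval_cons, wval_pull, ← mul_assoc, map_mul]
    change W.map (snd Z (C i)) x * W.map (snd Z (C i)) y * _ = _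
    rw [← map_mul]
    have h4 : W.map (snd Z (C i)) (x * y) ∈ W.gr _ (2 * 1) := by
      rw [two_mul]
      exact W.map_mem _ (W.mul_mem hx.mem hy.mem)
    exact W.even_comm h4 _
  have hdeg : x * y * W.cl (C i) z ∈ W.gr (C i) (1 + 1 + 2 * j) :=
    W.mul_mem (W.mul_mem hx.mem hy.mem) (W.cl_mem hz)
  have hdim : (C i).dim = j + 1 := by
    by_contra hne
    exact hxy (W.tr_eq_zero hdeg (by omega))
  have h4 := cyc_mul_con hcyc (ops.pull_mem (snd Z (C i)) hz) h2'
  rw [W.cl_pull, algSpan_comm (algSpan_map (snd Z (C i)) (cl_mem_algSpan (W := W) hz)), h3,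
    mul_assoc, ← map_mul] at h4
  have h5 := push_con (fst Z (C i)) (j := a) (by rw [dim_prod]; omega) h4
  rw [Pool.Agent.H281R3.HT.push_fst (wval G) hdeg] at h5
  exact (Submodule.smul_mem_iff _ hxy).1 h5

/-- cancellation of lists -/
theorem conL_cancel_list (hcyc : CyclesHaveConiveau W) (hC : IsComplete Φ σ c Λ C)
    (L : List ((K →+* PadicAlgCl p) → ℝ)) (hL : ∀ a ∈ L, IsSlopeFunction p c Λ 1 a)
    {l : List (Option I × ℕ × ((K →+* PadicAlgCl p) → ℝ))} {b : ℕ}
    (h : ConL Φ σ C X (l ++ (L.map fun a => (none, 1, -a))) (b + L.length)) :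
    ConL Φ σ C X l b := by
  induction L generalizing b l with
  | nil =>
    rw [List.map_nil, List.append_nil] at h
    exact h
  | cons a L ih =>
    refine conL_cancel hcyc hC (hL a List.mem_cons_self) ?_
    refine ih (fun b hb => hL b (List.mem_cons_of_mem _ hb)) (b := b + 1)
      (l := (none, 1, -a) :: l) ?_
    rw [List.length_cons, ← add_assoc, add_right_comm] at h
    rw [List.map_cons] at h
    exact conL_perm List.perm_middle h

/-- sums of slope functions -/
theorem sf_add {d₁ d₂ : ℕ} {f g : (K →+* PadicAlgCl p) → ℝ} (hf : IsSlopeFunction p c Λ d₁ f)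
    (hg : IsSlopeFunction p c Λ d₂ g) : IsSlopeFunction p c Λ (d₁ + d₂) (f + g) :=
  sf_map hf hg (fun x y => x + y) (fun x y => by ring) (fun x hx y hy => Λ.add_mem hx hy)
    fun x y hx hy => by
      rw [Nat.cast_add]
      refine (abs_add_le x y).trans ?_
      linarith

theorem sf_sum (l : List (Option I × ℕ × ((K →+* PadicAlgCl p) → ℝ)))
    (hl : ∀ x ∈ l, IsSlopeFunction p c Λ x.2.1 x.2.2) :
    IsSlopeFunction p c Λ (l.map fun x => x.2.1).sum (l.map fun x => x.2.2).sum := by
  induction l with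
  | nil => exact sf_zero
  | cons x l ih =>
    rw [List.map_cons, List.map_cons, List.sum_cons, List.sum_cons]
    exact sf_add (hl x List.mem_cons_self) (ih fun y hy => hl y (List.mem_cons_of_mem _ hy))

/-- the degree of a word -/
theorem word_gr {l : List (Option I × ℕ × ((K →+* PadicAlgCl p) → ℝ))}
    {G : List (Lt Φ σ (Sum.elim C X) Z)} (hG : G.map lab = l) :
    wval G ∈ W.gr Z (l.map fun x => x.2.1).sum := by
  have h1 : (G.map fun l => l.d) = l.map fun x => x.2.1 := by
    rw [← hG]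
    exact map_labels G fun x => x.2.1
  rw [← h1]
  exact wval_gr G

/-- **Words with slopes at least `ν` have coniveau `ν`.** -/
theorem conL_words (hcyc : CyclesHaveConiveau W) (hΛ : (1 / 2 : ℝ) ∈ Λ)
    (hC : IsComplete Φ σ c Λ C)
    (hT : ForSmall C X D fun Z m => ∀ b, HasTate Φ (fun Z => algSpan W Z) Z b m)
    (l : List (Option I × ℕ × ((K →+* PadicAlgCl p) → ℝ)))
    (hl : ∀ x ∈ l, (∀ i, x.1 = some i → x.2.1 ≤ D i) ∧ (x.1 = none → x.2.1 ≤ 1) ∧
      IsSlopeFunction p c Λ x.2.1 x.2.2) {ν : ℕ}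
    (hs : ∀ τ, (l.map fun x => x.2.2).sum τ ≤ ((l.map fun x => x.2.1).sum : ℕ) / 2 - ν) :
    ConL Φ σ C X l ν := by
  have h1 := sf_sum l fun x hx => (hl x hx).2.2
  set s := (l.map fun x => x.2.2).sum with hsdef
  set d := (l.map fun x => x.2.1).sum with hddef
  have habs : ∀ τ, |s τ| ≤ (d : ℝ) / 2 - ν := by
    intro τ
    rw [abs_le]
    have h2 := hs (τ.comp c)
    rw [h1.conj] at h2
    exact ⟨by linarith, hs τ⟩
  have hdν : 2 * ν ≤ d := by
    let τ : K →+* PadicAlgCl p := (IsAlgClosed.lift : K →ₐ[ℚ] PadicAlgCl p).toRingHom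
    have h2 := (abs_nonneg _).trans (habs τ)
    have h3 : (2 * ν : ℝ) ≤ d := by linarith
    exact_mod_cast h3
  obtain ⟨d', hd'⟩ := Nat.exists_eq_add_of_le hdν
  have h2 : IsSlopeFunction p c Λ d' s :=
    ⟨h1.mem, fun τ => by
      have h3 := habs τ
      rw [hd'] at h3
      push_cast at h3
      linarith, h1.conj, h1.galois, h1.finite⟩
  obtain ⟨P, hP1, hP2, hP3⟩ := exists_pieces hΛ h2
  have hneg : ∀ L : List ((K →+* PadicAlgCl p) → ℝ), (L.map fun a => -a).sum = -L.sum := by
    intro L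
    induction L with
    | nil => simp
    | cons a L ih => rw [List.map_cons, List.sum_cons, List.sum_cons, ih]; abel
  have h3 := algL_all stable_alg hΛ hC hT l hl (P.map fun a => -a) (fun a ha => by
    obtain ⟨b, hb, rfl⟩ := List.mem_map.1 ha
    exact sf_neg (hP2 b hb)) (by
    rw [List.length_map, hP1, ← hddef, hd']
    exact ⟨ν + d', by ring⟩) (by
    rw [hneg, hP3, ← hsdef, add_neg_cancel])
  refine conL_cancel_list hcyc hC P hP2 ?_
  intro Z G hG
  have h4 := h3 Z G (by
    rw [hG, List.map_map]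
    rfl)
  refine alg_con hcyc h4 ?_
  have h5 := word_gr hG
  have h6 : ((l ++ P.map fun a => ((none : Option I), (1 : ℕ), -a)).map fun x => x.2.1).sum =
      2 * (ν + P.length) := by
    rw [List.map_append, List.sum_append, ← hddef, List.map_map]
    have h7 : ((fun x : Option I × ℕ × ((K →+* PadicAlgCl p) → ℝ) => x.2.1) ∘
        fun a : (K →+* PadicAlgCl p) → ℝ => ((none : Option I), (1 : ℕ), -a)) =
        fun _ => 1 := rfl
    rw [h7, List.map_const', List.sum_replicate, hP1, smul_eq_mul, mul_one, hd']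
    ring
  rw [h6] at h5
  exact h5

end main

end Pool.Agent.Run7.h142.CE
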