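import Pool.Agent.TH121.KT.Final
import Pool.Agent.Run7.h142.CE.Alg

/-!
# The Tate classes on products of varieties of dimension at most `D` (helper142)

The passage from relations to cycles is adapted from the starting file `Y138/KC/Gen`.
-/

set_option autoImplicit false
set_option linter.unusedSectionVars false

open CategoryTheory AlgebraicGeometry
open scoped TensorProduct

universe u v w w'

namespace Pool.Agent.Run7.h142.CE

open Pool.Agent.H914 Pool.Agent.H914.VarClass Pool.Agent.H914.VarClass.Obj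
  Pool.Agent.H914.WeilCohomology Pool.Agent.H281R3.HT Pool.Agent.W534
  Pool.Agent.W458.RK Pool.Agent.W458.MF Pool.Agent.TH132.A Pool.Agent.W536.RR
  Pool.Agent.TH121.KT Pool.Agent.Y138.TU
open Pool.Agent.Run7.h142.GT (TateTo iterate_eq)

variable {k : Type u} [Field k] {𝒱 : VarClass k} {ops : CycleOps 𝒱}
  {W : WeilCohomology.{u, v} ops} {p : ℕ} [Fact p.Prime] {Φ : FrobSystem W p}
  {K : Type} [Field K] {σ : K →+* W.K} {c : K →+* K}
  {Λ : AddSubgroup ℝ} {J : Type w} {C : J → 𝒱.Obj} {I : Type w'} {X : I → 𝒱.Obj} {D : I → ℕ}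
  {Z : 𝒱.Obj} {S : ∀ Z : 𝒱.Obj, Submodule W.K (W.H Z)}

theorem isProduct_prodOf {F : I → 𝒱.Obj} (Y : 𝒱.Obj) (l : List 𝒱.Obj) (hY : IsProduct W F Y)
    (hl : ∀ Z ∈ l, IsProduct W F Z) : IsProduct W F (prodOf Y l) := by
  induction l generalizing Y with
  | nil => exact hY
  | cons Z l ih =>
    exact IsProduct.prod hY (ih Z (hl Z List.mem_cons_self)
      fun V hV => hl V (List.mem_cons_of_mem _ hV))

/-- the small products are products -/
theorem isProduct_left (W : WeilCohomology.{u, v} ops) (C : J → 𝒱.Obj) (X : I → 𝒱.Obj) (j : J) :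
    IsProduct W (Sum.elim C X) (C j) := IsProduct.base (X := Sum.elim C X) (Sum.inl j)

theorem isProduct_right (W : WeilCohomology.{u, v} ops) (C : J → 𝒱.Obj) (X : I → 𝒱.Obj) (i : I) :
    IsProduct W (Sum.elim C X) (X i) := IsProduct.base (X := Sum.elim C X) (Sum.inr i)

theorem forSmall_of {P : 𝒱.Obj → ℕ → Prop}
    (h : ∀ Z, IsProduct W (Sum.elim C X) Z → ∀ m, P Z m) : ForSmall C X D P := by
  refine ⟨fun i l _ => h _ (isProduct_prodOf _ _ (isProduct_right W C X i) fun Z hZ => ?_) _,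
    fun j₁ j₂ j₃ j₄ => h _ (isProduct_prodOf _ _ (isProduct_left W C X j₁) fun Z hZ => ?_) _⟩
  · obtain ⟨j, -, rfl⟩ := List.mem_map.1 hZ
    exact isProduct_left W C X j
  · simp only [List.mem_cons, List.not_mem_nil, or_false] at hZ
    rcases hZ with rfl | rfl | rfl <;> exact isProduct_left W C X _

theorem forSmall_mono {P Q : 𝒱.Obj → ℕ → Prop} (h : ∀ Z m, P Z m → Q Z m)
    (hP : ForSmall C X D P) : ForSmall C X D Q :=
  ⟨fun i l hl => h _ _ (hP.1 i l hl), fun j₁ j₂ j₃ j₄ => h _ _ (hP.2 j₁ j₂ j₃ j₄)⟩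

/-- the degrees of the generators for the whole family -/
def degs (_ : J → 𝒱.Obj) (D : I → ℕ) : J ⊕ I → ℕ := Sum.elim (fun _ => 1) D

theorem generated_all (hC : IsComplete Φ σ c Λ C) (hX : ∀ i, IsGenerated Φ σ c Λ (D i) (X i)) :
    ∀ i, IsGenerated Φ σ c Λ (degs C D i) (Sum.elim C X i) := by
  rintro (j | i)
  · exact hC.generated j
  · exact hX i

theorem pow_card_eq (Y : 𝒱.Obj) (t m : ℕ) :
    (p : W.K) ^ (Φ.e Y * t * m) = (card Φ Y t : W.K) ^ m := by
  rw [W534.card, Nat.cast_pow, ← pow_mul]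

/-- the Tate classes as generalized eigenvectors -/
theorem hasTate_iff {Y : 𝒱.Obj} {m : ℕ} : (∀ b, HasTate Φ S Y b m) ↔
    ∀ t, 0 < t → ∀ x ∈ W.gr Y (2 * m),
      x ∈ (frob Φ Y t).maxGenEigenspace ((card Φ Y t : W.K) ^ m) → x ∈ S Y := by
  constructor
  · intro h t ht x hx hxm
    rw [Module.End.mem_maxGenEigenspace] at hxm
    obtain ⟨b, hb⟩ := hxm
    refine h b t ht x hx ?_
    rw [← pow_card_eq] at hb
    exact (iterate_eq (frob Φ Y t) _ b x).trans hb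
  · intro h b t ht x hx hxb
    refine h t ht x hx ?_
    rw [Module.End.mem_maxGenEigenspace]
    refine ⟨b, ?_⟩
    rw [← pow_card_eq]
    exact (iterate_eq (frob Φ Y t) _ b x).symm.trans hxb

/-- the algebraic classes -/
theorem stable_alg : IsStable W fun Z => algSpan W Z :=
  ⟨fun _ => ⟨le_rfl, fun _ hx _ hy => algSpan_mul hx hy⟩, fun _ _ f _ hx => algSpan_map f hx,
    fun _ _ f _ hx => algSpan_push f hx⟩

theorem tateTo_iff_hasTate {Y : 𝒱.Obj} {b m : ℕ} :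
    TateTo Φ Y b m ↔ HasTate Φ (fun Z => algSpan W Z) Y b m := by
  constructor
  · intro h t ht x hx hxb
    exact Pool.Agent.W397.MF.spanCycles_le_algSpan _ (h t ht x hx hxb)
  · intro h t ht x hx hxb
    exact spanCycles_of_alg (h t ht x hx hxb) hx

/-- **Domination.** -/
theorem hasTate_dominated (hS : IsStable W S) {Y : 𝒱.Obj} (f : Z ⟶ Y) {z : W.H Z}
    (hz : z ∈ algSpan W Z) (hf : ∀ y, W.push f (z * W.map f y) = y) {m : ℕ}
    (h : ∀ b, HasTate Φ S Z b m) : ∀ b, HasTate Φ S Y b m := by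
  rw [hasTate_iff] at h ⊢
  intro t ht x hx hxm
  obtain ⟨a, ha, hcomm⟩ := exists_comm Φ f
  obtain ⟨s', hs', hss, h1⟩ := hcomm (t * Φ.e Y) (Nat.mul_pos ht (Φ.e_pos _))
  have h2 : s' = t * (a * Φ.e Z) := by
    refine Nat.eq_of_mul_eq_mul_right (Φ.e_pos Y) ?_
    rw [hss]
    ring
  have h3 : x ∈ (frob Φ Y s').maxGenEigenspace ((card Φ Y s' : W.K) ^ m) := by
    have h4 := gen_pow_of_gen hxm (a * Φ.e Z)
    rw [← frob_mul_eq] at h4
    have h5 : ((card Φ Y t : W.K) ^ m) ^ (a * Φ.e Z) = (card Φ Y s' : W.K) ^ m := by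
      rw [h2, ← pow_card_eq, ← pow_card_eq, ← pow_mul]
      congr 1
      ring
    rw [h5, ← h2] at h4
    exact h4
  have h6 := gen_map (T := frob Φ Y s') (T' := frob Φ Z (a * (t * Φ.e Y)))
    (θ := (W.map f).toLinearMap) (c := 1) (fun y => by
      rw [one_smul]
      exact h1 y) h3
  rw [one_mul] at h6
  have h7 : (card Φ Y s' : W.K) ^ m = (card Φ Z (a * (t * Φ.e Y)) : W.K) ^ m := by
    rw [← pow_card_eq, ← pow_card_eq, mul_comm (Φ.e Y), hss, mul_comm (Φ.e Z)]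
  rw [h7] at h6
  have h8 : W.map f x ∈ S Z := h _ (Nat.mul_pos ha (Nat.mul_pos ht (Φ.e_pos _))) _
    (W.map_mem f hx) h6
  have h9 := hS.push _ _ f _ (hS.mul _ _ (hS.cycles _ hz) _ h8)
  rwa [hf] at h9

section main

variable [CharZero K] [Algebra.IsAlgebraic ℚ K]

/-- **The Tate classes on the products.** -/
theorem hasTate_product (hS : IsStable W S) (hΛ : (1 / 2 : ℝ) ∈ Λ) (hC : IsComplete Φ σ c Λ C)
    (hX : ∀ i, IsGenerated Φ σ c Λ (D i) (X i))
    (hT : ForSmall C X D fun Z m => ∀ b, HasTate Φ S Z b m)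
    (hZ : IsProduct W (Sum.elim C X) Z) (m : ℕ) : ∀ b, HasTate Φ S Z b m := by
  classical
  rw [hasTate_iff]
  intro t ht y _ hy
  obtain ⟨t₀, ht₀, h0⟩ := span_gd (span_wds (generated_all hC hX) hZ y)
  have h1 := h0 t ht
  set T := t₀ * t with hTdef
  have hTs : T = t * t₀ := mul_comm t₀ t
  have hTpos : 0 < T := Nat.mul_pos ht₀ ht
  have hcardT : ((card Φ Z t : W.K) ^ m) ^ t₀ = (card Φ Z T : W.K) ^ m := by
    rw [← pow_card_eq, ← pow_card_eq, ← pow_mul, hTs]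
    congr 1
    ring
  have h2 : y ∈ (frob Φ Z T).maxGenEigenspace ((card Φ Z T : W.K) ^ m) := by
    have h3 := gen_pow_of_gen hy t₀
    rwa [← frob_mul_eq, hcardT, ← hTs] at h3
  have heig : ∀ v ∈ GoodWds Φ σ c Λ (degs C D) (Sum.elim C X) Z T,
      ∃ (ω : W.K) (M j : ℕ) (L : List (Lt Φ σ (Sum.elim C X) Z)) (z : W.H Z),
      v ∈ (frob Φ Z T).maxGenEigenspace (ω * (card Φ Z T : W.K) ^ j) ∧ 0 < M ∧
      z ∈ algSpan W Z ∧ v = wval L * z ∧
      (∀ l ∈ L, l.d ≤ degs C D l.i ∧ IsSlopeFunction p c Λ l.d l.s) ∧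
      HasSlopes p σ (Φ.e Z * T) ((L.map fun l => l.d).sum + 2 * j)
        ((L.map fun l => l.s).sum) M (ω * (card Φ Z T : W.K) ^ j) := by
    rintro v ⟨L, j, M, z, hLc, hM, hz, hL, hcyc, rfl⟩
    obtain ⟨ω, h3, h4⟩ := word_eig L hL
    refine ⟨ω, M, j, L, W.cl Z z, ?_, hM, cl_mem_algSpan hz, rfl, hLc, ?_⟩
    · exact mul_gen h3 (eig_mem_gen hcyc)
    · have h5 := slopes_mul h4 (slopes_card (Φ := Φ) (σ := σ) (Z := Z) T j M)
      rwa [add_zero] at h5
  have h3 := mem_span_gen (T := frob Φ Z T) (fun v hv => by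
    obtain ⟨ω, _, j, _, _, h, _⟩ := heig v hv
    exact ⟨ω * (card Φ Z T : W.K) ^ j, h⟩) h1 h2
  refine (Submodule.span_le (p := S Z)).2 ?_ h3
  rintro v ⟨hv, hvμ⟩
  by_cases hv0 : v = 0
  · rw [hv0]
    exact Submodule.zero_mem _
  obtain ⟨ω, M, j, Lw, C', h4, hM, hC', hvL, hLc, h5⟩ := heig v hv
  have h6 : ω * (card Φ Z T : W.K) ^ j = (card Φ Z T : W.K) ^ m := eq_of_mem_gen h4 hvμ hv0
  obtain ⟨h17, h18⟩ := slopes_of_root h5 (Nat.mul_pos (Φ.e_pos _) hTpos) hM (c := (m : ℤ))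
    (N := 1) one_pos (by
      rw [h6, pow_one, pow_one, zpow_natCast, W534.card, Nat.cast_pow])
  have h21 := word_mem hS hΛ hC hT Lw hLc (by
      have h20 : Even (((Lw.map fun l => l.d).sum : ℕ) : ℤ) :=
        ⟨m - j, by push_cast at h17 ⊢; linarith⟩
      exact_mod_cast h20) h18
  rw [hvL]
  exact hS.mul Z _ h21 _ (hS.cycles Z hC')

/-- **The Tate classes on the dominated varieties.** -/
theorem hasTate_all (hS : IsStable W S) (hΛ : (1 / 2 : ℝ) ∈ Λ) (hC : IsComplete Φ σ c Λ C)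
    (hX : ∀ i, IsGenerated Φ σ c Λ (D i) (X i))
    (hT : ForSmall C X D fun Z m => ∀ b, HasTate Φ S Z b m)
    (Y : 𝒱.Obj) (hY : IsDominatedBy W C X Y) (b m : ℕ) : HasTate Φ S Y b m := by
  obtain ⟨Z, f, hZ, z, hz, hf⟩ := hY
  exact hasTate_dominated hS f hz hf (hasTate_product hS hΛ hC hX hT hZ m) b

theorem isDominated_of_product {F : I → 𝒱.Obj} {Y : 𝒱.Obj} (hY : IsProduct W F Y) :
    IsDominated W F Y := by
  refine ⟨Y, 𝟙 Y, hY, 1, one_mem_algSpan, fun y => ?_⟩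
  rw [one_mul, W.map_id]
  refine W.tr_ext fun x => ?_
  rw [W.tr_push, W.map_id]

/-- **The strong Tate conjecture.** -/
theorem tate_iff (hΛ : (1 / 2 : ℝ) ∈ Λ) (hC : IsComplete Φ σ c Λ C)
    (hX : ∀ i, IsGenerated Φ σ c Λ (D i) (X i)) :
    TateForDominated Φ C X ↔ StrongTateForSmall Φ C X D := by
  constructor
  · intro h
    exact forSmall_of (W := W) fun Z hZ m b => h Z (isDominated_of_product hZ) b m
  · intro h Y hY b m
    refine tateTo_iff_hasTate.2 (hasTate_all stable_alg hΛ hC hX ?_ Y hY b m)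
    exact forSmall_mono (fun Z m hZ b => tateTo_iff_hasTate.1 (hZ b)) h

end main

end Pool.Agent.Run7.h142.CE
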