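import Pool.Agent.W534.PoleDefs
import Pool.Agent.Run7.h142.CE.Defs

/-!
# The orders of the zeta functions at integers: definitions (helper142)
-/

set_option autoImplicit false

open CategoryTheory AlgebraicGeometry

universe u v w w'

namespace Pool.Agent.Run7.h142.CE

open Pool.Agent.H914 Pool.Agent.W534 VarClass Obj WeilCohomology

/-- The formula for the order of the zeta function holds at all integers for all varieties which are
dominated by products of the varieties `C j` and `X i`. -/
def PolesForDominated {k : Type u} [Field k] {𝒱 : VarClass k} {ops : CycleOps 𝒱}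
    {W : WeilCohomology.{u, v} ops} {p : ℕ} (Φ : FrobSystem W p) (τ : W.K →+* ℂ) {J : Type w}
    (C : J → 𝒱.Obj) {I : Type w'} (X : I → 𝒱.Obj) : Prop :=
  ∀ Y, IsDominatedBy W C X Y → ∀ m ≤ Y.dim, PoleFormula Φ τ Y m

/-- The formula for the order of the zeta function at the integer `m` holds for the products of one of
the varieties `X i` and of `m ≤ D i` of the varieties `C j`, and at the integer `m = 2` for the
products of four of the varieties `C j`. -/
def PolesForSmall {k : Type u} [Field k] {𝒱 : VarClass k} {ops : CycleOps 𝒱}
    {W : WeilCohomology.{u, v} ops} {p : ℕ} (Φ : FrobSystem W p) (τ : W.K →+* ℂ) {J : Type w}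
    (C : J → 𝒱.Obj) {I : Type w'} (X : I → 𝒱.Obj) (D : I → ℕ) : Prop :=
  ForSmall C X D fun Z m => m ≤ Z.dim → PoleFormula Φ τ Z m

end Pool.Agent.Run7.h142.CE
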