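import Pool.Agent.Run7.h142.CE.Main

/-!
# Semisimplicity of Frobenius on products (helper142)
-/

set_option autoImplicit false
set_option linter.unusedSectionVars false

open CategoryTheory AlgebraicGeometry
open scoped TensorProduct

universe u v w w'

namespace Pool.Agent.Run7.h142.CE

open Pool.Agent.H914 Pool.Agent.H914.VarClass Pool.Agent.H914.VarClass.Obj
  Pool.Agent.H914.WeilCohomology Pool.Agent.H281R3.HT Pool.Agent.W534
  Pool.Agent.W458.RK Pool.Agent.W458.MF Pool.Agent.TH132.A Pool.Agent.W536.RR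
  Pool.Agent.TH121.KT Pool.Agent.Y138.TU
open Pool.Agent.Run7.h142.GT (TateTo iterate_eq)

variable {k : Type u} [Field k] {𝒱 : VarClass k} {ops : CycleOps 𝒱}
  {W : WeilCohomology.{u, v} ops} {p : ℕ} [Fact p.Prime] {Φ : FrobSystem W p}
  {K : Type} [Field K] {σ : K →+* W.K} {c : K →+* K}
  {Λ : AddSubgroup ℝ} {J : Type w} {C : J → 𝒱.Obj} {I : Type w'} {X : I → 𝒱.Obj} {D : I → ℕ}
  {Y Z : 𝒱.Obj}

/-- the eigenvectors at the level `t` -/
def EigS (Φ : FrobSystem W p) (Z : 𝒱.Obj) (t : ℕ) : Set (W.H Z) :=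
  {v | ∃ ω : W.K, frob Φ Z t v = ω • v}

theorem eig_level {t : ℕ} {v : W.H Z} (hv : v ∈ EigS Φ Z t) (n : ℕ) : v ∈ EigS Φ Z (t * n) := by
  obtain ⟨ω, h⟩ := hv
  refine ⟨ω ^ n, ?_⟩
  rw [frob_mul_eq]
  induction n with
  | zero => rw [pow_zero, pow_zero, one_smul]; rfl
  | succ n ih =>
    rw [pow_succ', Module.End.mul_apply, ih, map_smul, h, smul_smul, pow_succ]

/-- the sums of eigenvectors for the power of Frobenius -/
def SS (Φ : FrobSystem W p) (Z : 𝒱.Obj) (z : W.H Z) : Prop :=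
  ∃ t, 0 < t ∧ z ∈ Submodule.span W.K (EigS Φ Z t)

theorem span_level {t : ℕ} {z : W.H Z} (h : z ∈ Submodule.span W.K (EigS Φ Z t)) (n : ℕ) :
    z ∈ Submodule.span W.K (EigS Φ Z (t * n)) :=
  Submodule.span_mono (fun _ hv => eig_level hv n) h

theorem SS.add {x y : W.H Z} (hx : SS Φ Z x) (hy : SS Φ Z y) : SS Φ Z (x + y) := by
  obtain ⟨t, ht, h⟩ := hx
  obtain ⟨s, hs, h'⟩ := hy
  refine ⟨t * s, Nat.mul_pos ht hs, Submodule.add_mem _ (span_level h s) ?_⟩
  rw [mul_comm]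
  exact span_level h' t

theorem SS.smul {x : W.H Z} (r : W.K) (hx : SS Φ Z x) : SS Φ Z (r • x) := by
  obtain ⟨t, ht, h⟩ := hx
  exact ⟨t, ht, Submodule.smul_mem _ r h⟩

theorem SS.mul {x y : W.H Z} (hx : SS Φ Z x) (hy : SS Φ Z y) : SS Φ Z (x * y) := by
  obtain ⟨t, ht, h⟩ := hx
  obtain ⟨s, hs, h'⟩ := hy
  refine ⟨t * s, Nat.mul_pos ht hs, ?_⟩
  have h1 := span_level h s
  have h2 := span_level h' t
  rw [mul_comm] at h2
  clear h h'
  induction h1 using Submodule.span_induction with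
  | mem v hv =>
    induction h2 using Submodule.span_induction with
    | mem u hu =>
      obtain ⟨ω, hω⟩ := hv
      obtain ⟨ω', hω'⟩ := hu
      refine Submodule.subset_span ⟨ω * ω', ?_⟩
      rw [frob_mul_apply, hω, hω', smul_mul_smul_comm]
    | zero => rw [mul_zero]; exact Submodule.zero_mem _
    | add x y _ _ hx hy => rw [mul_add]; exact Submodule.add_mem _ hx hy
    | smul c x _ hx => rw [mul_smul_comm]; exact Submodule.smul_mem _ _ hx
  | zero => rw [zero_mul]; exact Submodule.zero_mem _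
  | add x y _ _ hx hy => rw [add_mul]; exact Submodule.add_mem _ hx hy
  | smul c x _ hx => rw [smul_mul_assoc]; exact Submodule.smul_mem _ _ hx

theorem SS.pull (f : Z ⟶ Y) {x : W.H Y} (hx : SS Φ Y x) : SS Φ Z (W.map f x) := by
  obtain ⟨t, ht, h⟩ := hx
  obtain ⟨a, ha, hcomm⟩ := exists_comm Φ f
  obtain ⟨s', hs', hss, h1⟩ := hcomm (t * Φ.e Y) (Nat.mul_pos ht (Φ.e_pos _))
  have h2 : s' = t * (a * Φ.e Z) := by
    refine Nat.eq_of_mul_eq_mul_right (Φ.e_pos Y) ?_
    rw [hss]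
    ring
  refine ⟨a * (t * Φ.e Y), Nat.mul_pos ha (Nat.mul_pos ht (Φ.e_pos _)), ?_⟩
  have h3 := span_level h (a * Φ.e Z)
  rw [← h2] at h3
  clear h
  induction h3 using Submodule.span_induction with
  | mem v hv =>
    obtain ⟨ω, hω⟩ := hv
    refine Submodule.subset_span ⟨ω, ?_⟩
    rw [h1, hω, map_smul]
  | zero => rw [map_zero]; exact Submodule.zero_mem _
  | add x y _ _ hx hy => rw [map_add]; exact Submodule.add_mem _ hx hy
  | smul c x _ hx => rw [map_smul]; exact Submodule.smul_mem _ _ hx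

theorem ss_zero : SS Φ Z 0 := ⟨1, one_pos, Submodule.zero_mem _⟩

theorem ss_alg {z : W.H Z} (hz : z ∈ algSpan W Z) : SS Φ Z z := by
  refine algSpan_induction (p := fun z => SS Φ Z z) ss_zero (fun a b ha hb => ha.add hb)
    (fun t a ha => ha.smul t) (fun j z hc => ?_) hz
  obtain ⟨b, hb, h1⟩ := Φ.cyc hc
  exact ⟨b, hb, Submodule.subset_span ⟨_, h1⟩⟩

theorem ss_gr {D : ℕ} (h : IsSemisimple Φ D Z) {d : ℕ} (hd : d ≤ D) {x : W.H Z} (hx : x ∈ W.gr Z d) :
    SS Φ Z x := by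
  refine ⟨1, one_pos, Submodule.span_mono ?_ (h d hd hx)⟩
  rintro v ⟨ω, hω⟩
  refine ⟨ω, ?_⟩
  rw [frob_pow_eq', pow_one]
  exact hω

/-- **semisimplicity on the products** -/
theorem ss_product (hX : ∀ i, IsGenerated Φ σ c Λ (D i) (X i))
    (hss : ∀ i, IsSemisimple Φ (D i) (X i)) (hZ : IsProduct W X Z) (z : W.H Z) : SS Φ Z z := by
  induction hZ with
  | alg h => exact ss_alg (h z)
  | base i =>
    have h1 := (hX i).generated z
    induction h1 using Algebra.adjoin_induction with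
    | mem x hx =>
      rcases hx with hx | ⟨d, hd, hx⟩
      · exact ss_alg hx
      · exact ss_gr (hss i) hd hx
    | algebraMap c =>
      rw [Algebra.algebraMap_eq_smul_one]
      exact (ss_alg one_mem_algSpan).smul c
    | add x y _ _ hx hy => exact hx.add hy
    | mul x y _ _ hx hy => exact hx.mul hy
  | prod hY hZ ihY ihZ =>
    rename_i Y Z
    obtain ⟨t, rfl⟩ := (W.kunneth Y Z).2 z
    induction t using TensorProduct.induction_on with
    | zero => rw [map_zero]; exact ss_zero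
    | add x y hx hy => rw [map_add]; exact hx.add hy
    | tmul x y => exact ((ihY x).pull _).mul ((ihZ y).pull _)

theorem hasTate_of_one {S : ∀ Z : 𝒱.Obj, Submodule W.K (W.H Z)}
    (hss : ∀ z, SS Φ Z z) {m : ℕ} (h : HasTate Φ S Z 1 m) :
    ∀ b, HasTate Φ S Z b m := by
  rw [hasTate_iff]
  intro t ht x hx hxm
  obtain ⟨t₀, ht₀, h1⟩ := hss x
  have h2 := span_level h1 t
  have h3 := gen_pow_of_gen hxm t₀
  have h4 : ((card Φ Z t : W.K) ^ m) ^ t₀ = (card Φ Z (t₀ * t) : W.K) ^ m := by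
    rw [← pow_card_eq, ← pow_card_eq, ← pow_mul]
    congr 1
    ring
  rw [← frob_mul_eq, h4, mul_comm t t₀] at h3
  have h5 := mem_span_gen (T := frob Φ Z (t₀ * t)) (fun v hv => by
    obtain ⟨ω, hω⟩ := hv
    exact ⟨ω, eig_mem_gen hω⟩) h2 h3
  have h6 : frob Φ Z (t₀ * t) x = (card Φ Z (t₀ * t) : W.K) ^ m • x := by
    clear h2 h3 hx hxm h1
    induction h5 using Submodule.span_induction with
    | mem v hv =>
      obtain ⟨⟨ω, hω⟩, h7⟩ := hv
      by_cases hv0 : v = 0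
      · rw [hv0, map_zero, smul_zero]
      · rw [hω, eq_of_mem_gen (eig_mem_gen hω) h7 hv0]
    | zero => rw [map_zero, smul_zero]
    | add a b _ _ ha hb => rw [map_add, ha, hb, smul_add]
    | smul r a _ ha => rw [map_smul, ha, smul_comm]
  refine h (t₀ * t) (Nat.mul_pos ht₀ ht) x hx ?_
  change frob Φ Z (t₀ * t) x - (p : W.K) ^ (Φ.e Z * (t₀ * t) * m) • x = 0
  rw [h6, pow_card_eq, sub_self]

section main

variable [CharZero K] [Algebra.IsAlgebraic ℚ K]

/-- **The Tate conjecture, if Frobenius is semisimple in the degrees `≤ D`.** -/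
theorem tate_iff_one (hΛ : (1 / 2 : ℝ) ∈ Λ) (hC : IsComplete Φ σ c Λ C)
    (hX : ∀ i, IsGenerated Φ σ c Λ (D i) (X i)) (hsC : ∀ j, IsSemisimple Φ 1 (C j))
    (hsX : ∀ i, IsSemisimple Φ (D i) (X i)) :
    TateForDominated Φ C X ↔ TateForSmall Φ C X D := by
  rw [tate_iff hΛ hC hX]
  constructor
  · intro h
    exact forSmall_mono (fun Z m hZ => hZ 1) h
  · intro h
    have h1 : ∀ i, IsSemisimple Φ (degs C D i) (Sum.elim C X i) := by
      rintro (j | i)
      · exact hsC j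
      · exact hsX i
    have h2 : ForSmall C X D fun Z _ => ∀ z, SS Φ Z z :=
      forSmall_of (W := W) fun Z hZ _ z => ss_product (generated_all hC hX) h1 hZ z
    have h3 : ∀ Z m, TateTo Φ Z 1 m → (∀ z, SS Φ Z z) → ∀ b, TateTo Φ Z b m :=
      fun Z m hT hz b => tateTo_iff_hasTate.2 (hasTate_of_one hz (tateTo_iff_hasTate.1 hT) b)
    exact ⟨fun i l hl => h3 _ _ (h.1 i l hl) (h2.1 i l hl),
      fun j₁ j₂ j₃ j₄ => h3 _ _ (h.2 j₁ j₂ j₃ j₄) (h2.2 j₁ j₂ j₃ j₄)⟩

end main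

end Pool.Agent.Run7.h142.CE
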