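import Pool.Agent.W534.PoleD
import Pool.Agent.W484.HS.Dn
import Pool.Agent.Run7.h142.CE.Semi
import Pool.Agent.Run7.h142.CE.PoleDefs

/-!
# Homological and numerical equivalence, and the orders of the poles (helper142)
-/

set_option autoImplicit false
set_option linter.unusedSectionVars false

open CategoryTheory AlgebraicGeometry
open scoped TensorProduct

universe u v w w'

namespace Pool.Agent.Run7.h142.CE

open Pool.Agent.H914 Pool.Agent.H914.VarClass Pool.Agent.H914.VarClass.Obj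
  Pool.Agent.H914.WeilCohomology Pool.Agent.H281R3.HT Pool.Agent.W534 Pool.Agent.H447
  Pool.Agent.W458.RK Pool.Agent.W458.MF Pool.Agent.TH132.A Pool.Agent.W536.RR
  Pool.Agent.TH121.KT Pool.Agent.Y138.TU
open Pool.Agent.Run7.h142.GT (TateTo tateTo_one forall_tateTo iterate_eq)

variable {k : Type u} [Field k] {𝒱 : VarClass k} {ops : CycleOps 𝒱}
  {W : WeilCohomology.{u, v} ops} {p : ℕ} [Fact p.Prime] {Φ : FrobSystem W p}
  {K : Type} [Field K] {σ : K →+* W.K} {c : K →+* K}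
  {Λ : AddSubgroup ℝ} {J : Type w} {C : J → 𝒱.Obj} {I : Type w'} {X : I → 𝒱.Obj} {D : I → ℕ}
  {Y Z : 𝒱.Obj} {τ : W.K →+* ℂ}

/-- a numerically trivial cycle pairs trivially with all combinations of algebraic classes -/
theorem tr_of_num {j : ℕ} (hj : j ≤ Y.dim) {z : Y.Cycles} (hz : Y.IsCyc j z)
    (hnum : ∀ w, Y.IsCyc (Y.dim - j) w → Y.V.degCycle (ops.mul z w) = 0) {a : W.H Y}
    (ha : a ∈ algSpan W Y) : W.tr Y (W.cl Y z * a) = 0 := by
  refine algSpan_induction (p := fun a => W.tr Y (W.cl Y z * a) = 0)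
    (by rw [mul_zero, map_zero])
    (fun a b ha hb => by rw [mul_add, map_add, ha, hb, add_zero])
    (fun t a ha => by rw [mul_smul_comm, map_smul, ha, smul_zero])
    (fun i z' hz' => ?_) ha
  by_cases hi : j + i = Y.dim
  · have h7 := ops.mul_mem hz hz'
    rw [hi] at h7
    rw [← W.cl_mul, W.tr_cl h7, hnum z' (by rwa [show Y.dim - j = i by omega]), Rat.cast_zero]
  · refine W.tr_eq_zero (W.mul_mem (W.cl_mem hz) (W.cl_mem hz')) ?_
    omega

/-- **Homological and numerical equivalence on dominated varieties.** -/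
theorem homEqNum_dominated (hD : HomEqNum W Z) (f : Z ⟶ Y) {z : W.H Z} (hz : z ∈ algSpan W Z)
    (hf : ∀ y, W.push f (z * W.map f y) = y) : HomEqNum W Y := by
  intro j hj x hx hnum
  have h1 : z * W.map f (W.cl Y x) = 0 := by
    refine Pool.Agent.W484.HS.algSpan_nondeg hD
      (algSpan_mul hz (algSpan_map f (cl_mem_algSpan hx))) fun w hw => ?_
    have hw' : w ∈ algSpan W Z := by
      rw [Pool.Agent.W484.HS.algSpan_eq]
      exact Submodule.subset_span hw
    have h2 : z * W.map f (W.cl Y x) * w = z * w * W.map f (W.cl Y x) := by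
      rw [mul_assoc, mul_assoc]
      congr 1
      exact algSpan_comm (algSpan_map f (cl_mem_algSpan hx)) w
    rw [h2, ← W.tr_push]
    have h3 : W.push f (z * w) ∈ algSpan W Y := algSpan_push f (algSpan_mul hz hw')
    rw [← algSpan_comm (cl_mem_algSpan hx)]
    exact tr_of_num hj hx hnum h3
  rw [← hf (W.cl Y x), h1, map_zero]

section main

variable [CharZero K] [Algebra.IsAlgebraic ℚ K]

/-- **The generalized Tate classes in tensor products.** -/
theorem tateTimesP_one [IsAlgClosed W.K] (hΛ : (1 / 2 : ℝ) ∈ Λ) (hC : IsComplete Φ σ c Λ C)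
    (hX : ∀ i, IsGenerated Φ σ c Λ (D i) (X i))
    (hT : ForSmall C X D fun Z m => ∀ b, HasTate Φ (fun Z => algSpan W Z) Z b m)
    (hZ : IsProduct W (Sum.elim C X) Z) :
    TateTimesP Φ (fun ν => ν = 1) Z := by
  classical
  intro t hs V _ _ _ G hG c' a x hx
  have hQ : ∀ t, (card Φ Z t : W.K) ≠ 0 := fun t => card_ne Φ t
  refine (tensor_killed (F := frob Φ Z t) (G := G) (card Φ Z t : W.K) (hQ t) c'
    (fun i => cycSub W Z i) (fun i y hy => cyc_killed Φ hy) ?_ a x).1 hx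
  intro μ ν N hN hν hrel
  refine le_trans ?_ algSpan_le_cyc
  intro y hy
  have hν1 : ν = 1 := hG ν hν
  rw [hν1, mul_one] at hrel
  obtain ⟨t₀, ht₀, h0⟩ := span_gd (span_wds (generated_all hC hX) hZ y)
  have h1 := h0 t hs
  set T := t₀ * t with hTdef
  have hTs : T = t * t₀ := mul_comm t₀ t
  have hTpos : 0 < T := Nat.mul_pos ht₀ hs
  have h2 : y ∈ Module.End.maxGenEigenspace (frob Φ Z T) (μ ^ t₀) := by
    rw [hTs, frob_mul_eq]
    exact gen_pow_of_gen hy _
  have heig : ∀ v ∈ GoodWds Φ σ c Λ (degs C D) (Sum.elim C X) Z T,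
      ∃ (ω : W.K) (M j : ℕ) (L : List (Lt Φ σ (Sum.elim C X) Z))
      (z : W.H Z), v ∈ (frob Φ Z T).maxGenEigenspace (ω * (card Φ Z T : W.K) ^ j) ∧ 0 < M ∧
      z ∈ algSpan W Z ∧ v = wval L * z ∧
      (∀ l ∈ L, l.d ≤ degs C D l.i ∧ IsSlopeFunction p c Λ l.d l.s) ∧
      HasSlopes p σ (Φ.e Z * T) ((L.map fun l => l.d).sum + 2 * j)
        ((L.map fun l => l.s).sum) M (ω * (card Φ Z T : W.K) ^ j) := by
    rintro v ⟨L, j, M, z, hLc, hM, hz, hL, hcyc, rfl⟩
    obtain ⟨ω, h3, h4⟩ := word_eig L hL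
    refine ⟨ω, M, j, L, W.cl Z z, mul_gen h3 (eig_mem_gen hcyc), hM, cl_mem_algSpan hz, rfl,
      hLc, ?_⟩
    have h5 := slopes_mul h4 (slopes_card (Φ := Φ) (σ := σ) (Z := Z) T j M)
    rwa [add_zero] at h5
  have h3 := mem_span_gen (T := frob Φ Z T) (fun v hv => by
    obtain ⟨ω, _, j, _, _, h, _⟩ := heig v hv
    exact ⟨ω * (card Φ Z T : W.K) ^ j, h⟩) h1 h2
  refine (Submodule.span_le (p := algSpan W Z)).2 ?_ h3
  rintro v ⟨hv, hvμ⟩
  by_cases hv0 : v = 0
  · rw [hv0]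
    exact Submodule.zero_mem _
  obtain ⟨ω, M, j, Lw, C', h4, hM, hC', hvL, hLc, h5⟩ := heig v hv
  have h6 : ω * (card Φ Z T : W.K) ^ j = μ ^ t₀ := eq_of_mem_gen h4 hvμ hv0
  have hcardT : (card Φ Z T : W.K) = (p : W.K) ^ (Φ.e Z * T) := by
    rw [W534.card, Nat.cast_pow]
  have h15 : (card Φ Z t : W.K) ^ t₀ = (card Φ Z T : W.K) := by
    rw [W534.card, W534.card, hTdef]
    push_cast
    rw [← pow_mul]
    congr 1
    ring
  have h16 : (μ ^ t₀) ^ N = ((card Φ Z T : W.K) ^ c') ^ N := by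
    rw [← pow_mul, mul_comm t₀ N, pow_mul, hrel, ← h15, ← pow_mul, ← zpow_natCast,
      ← zpow_natCast, ← zpow_natCast, ← zpow_mul, ← zpow_mul, ← zpow_mul]
    congr 1
    push_cast
    ring
  rw [← h6] at h16
  obtain ⟨h17, h18⟩ := slopes_of_root h5 (Nat.mul_pos (Φ.e_pos _) hTpos) hM (c := c') hN (by
    rw [h16, hcardT])
  have h21 := word_mem stable_alg hΛ hC hT Lw hLc (by
      have h20 : Even (((Lw.map fun l => l.d).sum : ℕ) : ℤ) :=
        ⟨c' - j, by push_cast at h17 ⊢; linarith⟩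
      exact_mod_cast h20) h18
  rw [hvL]
  exact algSpan_mul h21 hC'

/-- **Homological and numerical equivalence coincide.** -/
theorem homEqNum_all [IsAlgClosed W.K] (hΛ : (1 / 2 : ℝ) ∈ Λ) (hC : IsComplete Φ σ c Λ C)
    (hX : ∀ i, IsGenerated Φ σ c Λ (D i) (X i)) (hT : StrongTateForSmall Φ C X D)
    (hY : IsDominatedBy W C X Y) : HomEqNum W Y := by
  obtain ⟨Z, f, hZ, z, hz, hf⟩ := hY
  refine homEqNum_dominated ?_ f hz hf
  exact homEqNum_of_tateTimesP (Fact.out : p.Prime).one_lt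
    (tateTimesP_one hΛ hC hX (forSmall_mono (fun Z m h b => tateTo_iff_hasTate.1 (h b)) hT) hZ) rfl

/-- the pole formula implies the strong Tate conjecture -/
theorem tate_of_pole (hRH : ∀ Z : 𝒱.Obj, RiemannHyp Φ τ Z) {m : ℕ}
    (h : m ≤ Z.dim → PoleFormula Φ τ Z m) (b : ℕ) : TateTo Φ Z b m := by
  by_cases hm : m ≤ Z.dim
  · obtain ⟨l, hl⟩ := Nat.exists_eq_add_of_le hm
    exact forall_tateTo.2
      (semisimple_of_pole (Fact.out : p.Prime).one_lt (hRH Z) hl.symm (h hm)).1 b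
  · intro t _ x hx _
    rw [W.gr_eq_bot _ _ (by omega)] at hx
    rw [(Submodule.mem_bot _).1 hx]
    exact Submodule.zero_mem _

/-- **The orders of the poles and the Tate conjecture.** -/
theorem pole_iff_tate_small [IsAlgClosed W.K] (hRH : ∀ Z : 𝒱.Obj, RiemannHyp Φ τ Z)
    (hΛ : (1 / 2 : ℝ) ∈ Λ) (hC : IsComplete Φ σ c Λ C)
    (hX : ∀ i, IsGenerated Φ σ c Λ (D i) (X i)) :
    PolesForDominated Φ τ C X ↔ StrongTateForSmall Φ C X D := by
  have hp := (Fact.out : p.Prime).one_lt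
  constructor
  · intro h
    exact forSmall_of (W := W) fun Z hZ m b =>
      tate_of_pole hRH (fun hm => h Z (isDominated_of_product hZ) m hm) b
  · intro hT Y hY m hm
    refine (pole_iff_tate hp (hRH _) hm).2 ⟨?_, ?_⟩
    · exact tateTo_one.1 ((tate_iff hΛ hC hX).2 hT Y hY 1 m)
    · exact fun z hz hw => homEqNum_all hΛ hC hX hT hY m hm z hz hw

/-- **The orders of the poles.** -/
theorem pole_iff [IsAlgClosed W.K] (hRH : ∀ Z : 𝒱.Obj, RiemannHyp Φ τ Z)
    (hΛ : (1 / 2 : ℝ) ∈ Λ) (hC : IsComplete Φ σ c Λ C)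
    (hX : ∀ i, IsGenerated Φ σ c Λ (D i) (X i)) :
    PolesForDominated Φ τ C X ↔ PolesForSmall Φ τ C X D := by
  constructor
  · exact fun h => forSmall_of (W := W) fun Z hZ m hm => h Z (isDominated_of_product hZ) m hm
  · intro h
    exact (pole_iff_tate_small hRH hΛ hC hX).2
      (forSmall_mono (fun Z m hZ b => tate_of_pole hRH hZ b) h)

/-- **The orders of the poles, if Frobenius is semisimple in small degrees.** -/
theorem pole_iff_one [IsAlgClosed W.K] (hRH : ∀ Z : 𝒱.Obj, RiemannHyp Φ τ Z)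
    (hΛ : (1 / 2 : ℝ) ∈ Λ) (hC : IsComplete Φ σ c Λ C)
    (hX : ∀ i, IsGenerated Φ σ c Λ (D i) (X i)) (hsC : ∀ j, IsSemisimple Φ 1 (C j))
    (hsX : ∀ i, IsSemisimple Φ (D i) (X i)) :
    PolesForDominated Φ τ C X ↔ TateForSmall Φ C X D := by
  rw [pole_iff_tate_small hRH hΛ hC hX, ← tate_iff hΛ hC hX, tate_iff_one hΛ hC hX hsC hsX]

end main

end Pool.Agent.Run7.h142.CE
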