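import Pool.Agent.Run7.h142.CE.PoleDefs

/-!
# Two cohomology theories with the same zeta functions: definitions (helper142)
-/

set_option autoImplicit false

open CategoryTheory AlgebraicGeometry

universe u v v' w w'

namespace Pool.Agent.Run7.h142.CE

open Pool.Agent.H914 Pool.Agent.W534 VarClass Obj WeilCohomology

/-- The cohomology `W` with the system `Φ` of Frobenius endomorphisms (for instance the `ℓ`-adic
cohomology with coefficients in an algebraic closure of `ℚ_ℓ`, or the crystalline cohomology with
coefficients in an algebraic closure of `ℚ_p`) satisfies the Riemann hypothesis; for this cohomology the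
varieties `C j` are like all curves, or all abelian varieties (`IsComplete`), and the cohomology of
`X i` is generated by the classes of algebraic cycles and by the cohomology in the degrees `d ≤ D i`
(`IsGenerated`). -/
structure IsSuitable {k : Type u} [Field k] {𝒱 : VarClass k} {ops : CycleOps 𝒱}
    {W : WeilCohomology.{u, v} ops} {p : ℕ} [Fact p.Prime] (Φ : FrobSystem W p)
    (τ : W.K →+* ℂ) {K : Type} [Field K] (σ : K →+* W.K) (c : K →+* K) (Λ : AddSubgroup ℝ)
    {J : Type w} (C : J → 𝒱.Obj) {I : Type w'} (X : I → 𝒱.Obj) (D : I → ℕ) : Prop where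
  closed : IsAlgClosed W.K
  riemann : ∀ Z : 𝒱.Obj, RiemannHyp Φ τ Z
  complete : IsComplete Φ σ c Λ C
  generated : ∀ i, IsGenerated Φ σ c Λ (D i) (X i)

/-- The two cohomology theories define the same zeta functions. (For the `ℓ`-adic and the crystalline
cohomology this is the Lefschetz trace formula.) -/
def SameZeta {k : Type u} [Field k] {𝒱 : VarClass k} {ops : CycleOps 𝒱}
    {W : WeilCohomology.{u, v} ops} {W' : WeilCohomology.{u, v'} ops} {p : ℕ}
    (Φ : FrobSystem W p) (τ : W.K →+* ℂ) (Φ' : FrobSystem W' p) (τ' : W'.K →+* ℂ) : Prop :=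
  ∀ (Z : 𝒱.Obj) (s : ℕ), zetaFn Φ τ Z s = zetaFn Φ' τ' Z s

end Pool.Agent.Run7.h142.CE
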