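import Pool.Agent.Run7.h142.CE.Pole
import Pool.Agent.Run7.h142.CE.PrimeDefs

/-!
# Independence of the cohomology theory (helper142)
-/

set_option autoImplicit false

open CategoryTheory AlgebraicGeometry

universe u v v' w w'

namespace Pool.Agent.Run7.h142.CE

open Pool.Agent.H914 Pool.Agent.W534 VarClass Obj WeilCohomology
open Pool.Agent.Run7.h142.GT (TateTo)

variable {k : Type u} [Field k] {𝒱 : VarClass k} {ops : CycleOps 𝒱}
  {W : WeilCohomology.{u, v} ops} {W' : WeilCohomology.{u, v'} ops} {p : ℕ} [Fact p.Prime]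
  {Φ : FrobSystem W p} {Φ' : FrobSystem W' p} {τ : W.K →+* ℂ} {τ' : W'.K →+* ℂ}
  {K : Type} [Field K] {σ : K →+* W.K} {σ' : K →+* W'.K} {c : K →+* K}
  {Λ : AddSubgroup ℝ} {J : Type w} {C : J → 𝒱.Obj} {I : Type w'} {X : I → 𝒱.Obj} {D : I → ℕ}

theorem poleFormula_iff (h : SameZeta Φ τ Φ' τ') (Z : 𝒱.Obj) (m : ℕ) :
    PoleFormula Φ τ Z m ↔ PoleFormula Φ' τ' Z m := by
  unfold PoleFormula
  constructor
  · rintro ⟨t, ht, h1⟩
    refine ⟨t, ht, fun s hs hts => ?_⟩
    rw [← h Z s]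
    exact h1 s hs hts
  · rintro ⟨t, ht, h1⟩
    refine ⟨t, ht, fun s hs hts => ?_⟩
    rw [h Z s]
    exact h1 s hs hts

variable [CharZero K] [Algebra.IsAlgebraic ℚ K]

/-- the strong Tate conjecture for small products does not depend on the cohomology theory -/
theorem small_iff_small (hΛ : (1 / 2 : ℝ) ∈ Λ) (h : IsSuitable Φ τ σ c Λ C X D)
    (h' : IsSuitable Φ' τ' σ' c Λ C X D) (hz : SameZeta Φ τ Φ' τ') :
    StrongTateForSmall Φ C X D ↔ StrongTateForSmall Φ' C X D := by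
  haveI := h.closed
  haveI := h'.closed
  have h1 := pole_iff_tate_small h.riemann hΛ h.complete h.generated
  have h2 := pole_iff h.riemann hΛ h.complete h.generated
  have h3 := pole_iff_tate_small h'.riemann hΛ h'.complete h'.generated
  have h4 := pole_iff h'.riemann hΛ h'.complete h'.generated
  rw [← h1, h2, ← h3, h4]
  exact ⟨fun h5 => forSmall_mono (fun Z m h6 hm => (poleFormula_iff hz Z m).1 (h6 hm)) h5,
    fun h5 => forSmall_mono (fun Z m h6 hm => (poleFormula_iff hz Z m).2 (h6 hm)) h5⟩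

/-- **Independence of the cohomology theory.** -/
theorem dominated_iff_small (hΛ : (1 / 2 : ℝ) ∈ Λ) (h : IsSuitable Φ τ σ c Λ C X D)
    (h' : IsSuitable Φ' τ' σ' c Λ C X D) (hz : SameZeta Φ τ Φ' τ') :
    TateForDominated Φ' C X ↔ StrongTateForSmall Φ C X D := by
  rw [tate_iff hΛ h'.complete h'.generated, small_iff_small hΛ h h' hz]

theorem dominated_iff_small_one (hΛ : (1 / 2 : ℝ) ∈ Λ) (h : IsSuitable Φ τ σ c Λ C X D)
    (h' : IsSuitable Φ' τ' σ' c Λ C X D) (hz : SameZeta Φ τ Φ' τ')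
    (hsC : ∀ j, IsSemisimple Φ 1 (C j)) (hsX : ∀ i, IsSemisimple Φ (D i) (X i)) :
    TateForDominated Φ' C X ↔ TateForSmall Φ C X D := by
  rw [dominated_iff_small hΛ h h' hz, ← tate_iff hΛ h.complete h.generated,
    tate_iff_one hΛ h.complete h.generated hsC hsX]

/-- homological and numerical equivalence -/
theorem homEqNum_of_small (hΛ : (1 / 2 : ℝ) ∈ Λ) (h : IsSuitable Φ τ σ c Λ C X D)
    (h' : IsSuitable Φ' τ' σ' c Λ C X D) (hz : SameZeta Φ τ Φ' τ')
    (hT : StrongTateForSmall Φ C X D) {Y : 𝒱.Obj} (hY : IsDominatedBy W' C X Y) :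
    HomEqNum W' Y := by
  haveI := h'.closed
  exact homEqNum_all hΛ h'.complete h'.generated ((small_iff_small hΛ h h' hz).1 hT) hY

end Pool.Agent.Run7.h142.CE
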